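import Pool.Agent.Q241.OP.Clo2

/-! # One symbol: the transform, the autocorrelation -/

set_option autoImplicit false

open MeasureTheory Filter Topology Set

namespace Q241.DT

open Q241.OP
open Pool.Agent.Y749.Rig (fl four_eq parseval fl_even tr)
open scoped FourierTransform

/-- a symbol -/
structure Sy (φ : ℝ → ℝ) : Prop where
  meas : Measurable φ
  nonneg : ∀ t, 0 ≤ φ t
  le_one : ∀ t, φ t ≤ 1
  int : Integrable φ

/-- the kernel -/
noncomputable def KF (φ : ℝ → ℝ) (u : ℝ) : ℂ :=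
  ∫ t : ℝ, (φ t : ℂ) * Complex.exp (2 * Real.pi * u * t * Complex.I)

/-- the autocorrelation -/
noncomputable def ac (φ : ℝ → ℝ) (α : ℝ) : ℝ := ∫ t : ℝ, φ t * φ (t + α)

variable {φ : ℝ → ℝ}

/-- the products are integrable -/
lemma Sy.int2 (h : Sy φ) : Integrable (fun z : ℝ × ℝ => φ z.1 * φ (z.1 + z.2))
    (volume.prod volume) := by
  have h1 : Integrable (fun z : ℝ × ℝ => φ z.1 * φ z.2) (volume.prod volume) := h.int.mul_prod h.int
  have h2 := (measurePreserving_prod_add (volume : Measure ℝ) (volume : Measure ℝ)).integrable_comp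
    (g := fun z : ℝ × ℝ => φ z.1 * φ z.2) h1.1
  exact h2.2 h1

lemma Sy.ac_int (h : Sy φ) : Integrable (ac φ) := h.int2.integral_prod_right

lemma Sy.prod_int (h : Sy φ) (α : ℝ) : Integrable (fun t => φ t * φ (t + α)) := by
  refine h.int.mono' (h.meas.mul (h.meas.comp (by fun_prop))).aestronglyMeasurable
    (ae_of_all _ fun t => ?_)
  rw [Real.norm_eq_abs, abs_of_nonneg (mul_nonneg (h.nonneg _) (h.nonneg _))]
  exact mul_le_of_le_one_right (h.nonneg _) (h.le_one _)

lemma Sy.sq_int (h : Sy φ) : Integrable (fun t => φ t ^ 2) := by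
  refine h.int.mono' (h.meas.pow_const 2).aestronglyMeasurable (ae_of_all _ fun t => ?_)
  have h0 := h.nonneg t
  have h1 := h.le_one t
  rw [Real.norm_eq_abs, abs_of_nonneg (sq_nonneg _)]
  nlinarith

lemma Sy.ac_nonneg (h : Sy φ) (α : ℝ) : 0 ≤ ac φ α :=
  integral_nonneg fun _ => mul_nonneg (h.nonneg _) (h.nonneg _)

lemma Sy.ac_le (h : Sy φ) (α : ℝ) : ac φ α ≤ ∫ t, φ t ^ 2 := by
  have e : ∫ t, φ (t + α) ^ 2 = ∫ t, φ t ^ 2 := integral_add_right_eq_self (fun t => φ t ^ 2) α
  have i2 : Integrable (fun t => φ (t + α) ^ 2) := h.sq_int.comp_add_right α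
  have h1 : ac φ α ≤ ∫ t, (1 / 2 * φ t ^ 2 + 1 / 2 * φ (t + α) ^ 2) := by
    refine integral_mono (h.prod_int α) ((h.sq_int.const_mul _).add (i2.const_mul _)) fun t => ?_
    show φ t * φ (t + α) ≤ 1 / 2 * φ t ^ 2 + 1 / 2 * φ (t + α) ^ 2
    nlinarith [sq_nonneg (φ t - φ (t + α))]
  rw [integral_add (h.sq_int.const_mul _) (i2.const_mul _), integral_const_mul, integral_const_mul,
    e] at h1
  linarith

lemma Sy.sq_le (h : Sy φ) : ∫ t, φ t ^ 2 ≤ ∫ t, φ t := by
  refine integral_mono h.sq_int h.int fun t => ?_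
  have h0 := h.nonneg t
  have h1 := h.le_one t
  show φ t ^ 2 ≤ φ t
  nlinarith

lemma ac_even (φ : ℝ → ℝ) (α : ℝ) : ac φ (-α) = ac φ α := by
  unfold ac
  rw [← integral_add_right_eq_self (fun t => φ t * φ (t + -α)) α]
  refine integral_congr_ae (ae_of_all _ fun t => ?_)
  show φ (t + α) * φ (t + α + -α) = φ t * φ (t + α)
  rw [add_neg_cancel_right, mul_comm]

/-- **the square of the kernel is the transform of the autocorrelation** -/
lemma Sy.norm_sq (h : Sy φ) (u : ℝ) : ‖KF φ u‖ ^ 2 = fl (ac φ) u := by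
  set a : ℝ := 2 * Real.pi * u with ha
  set C : ℝ := ∫ t, φ t * Real.cos (a * t) with hC
  set D : ℝ := ∫ t, φ t * Real.sin (a * t) with hD
  have iC : ∀ b : ℝ, Integrable fun t => φ t * Real.cos (a * t + b) := fun b => by
    refine h.int.mono' (h.meas.mul (by fun_prop)).aestronglyMeasurable (ae_of_all _ fun t => ?_)
    rw [Real.norm_eq_abs, abs_mul, abs_of_nonneg (h.nonneg t)]
    exact mul_le_of_le_one_right (h.nonneg _) (Real.abs_cos_le_one _)
  have iD : Integrable fun t => φ t * Real.sin (a * t) := by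
    refine h.int.mono' (h.meas.mul (by fun_prop)).aestronglyMeasurable (ae_of_all _ fun t => ?_)
    rw [Real.norm_eq_abs, abs_mul, abs_of_nonneg (h.nonneg t)]
    exact mul_le_of_le_one_right (h.nonneg _) (Real.abs_sin_le_one _)
  have iC0 : Integrable fun t => φ t * Real.cos (a * t) := by
    have := iC 0
    simpa using this
  have e1 : KF φ u = (C : ℂ) + (D : ℂ) * Complex.I := by
    unfold KF
    rw [hC, hD, ← integral_complex_ofReal, ← integral_complex_ofReal, ← integral_mul_const,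
      ← integral_add iC0.ofReal (iD.ofReal.mul_const _)]
    refine integral_congr_ae (ae_of_all _ fun t => ?_)
    show (φ t : ℂ) * Complex.exp (2 * Real.pi * u * t * Complex.I) =
      ((φ t * Real.cos (a * t) : ℝ) : ℂ) + ((φ t * Real.sin (a * t) : ℝ) : ℂ) * Complex.I
    have e : (2 * Real.pi * u * t * Complex.I : ℂ) = ((a * t : ℝ) : ℂ) * Complex.I := by
      rw [ha]
      push_cast
      ring
    rw [e, Complex.exp_mul_I, ← Complex.ofReal_cos, ← Complex.ofReal_sin]
    push_cast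
    ring
  have e2 : ‖KF φ u‖ ^ 2 = C ^ 2 + D ^ 2 := by
    rw [e1, ← Complex.normSq_eq_norm_sq, Complex.normSq_add_mul_I]
  have e3 : ∀ t, Real.cos (a * t) * C + Real.sin (a * t) * D =
      ∫ α, φ (t + α) * Real.cos (a * α) := by
    intro t
    have c1 : C = ∫ s, φ (t + s) * Real.cos (a * (t + s)) :=
      (integral_add_left_eq_self (fun s => φ s * Real.cos (a * s)) t).symm
    have d1 : D = ∫ s, φ (t + s) * Real.sin (a * (t + s)) :=
      (integral_add_left_eq_self (fun s => φ s * Real.sin (a * s)) t).symm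
    rw [c1, d1, ← integral_const_mul, ← integral_const_mul,
      ← integral_add ((iC0.comp_add_left t).const_mul _) ((iD.comp_add_left t).const_mul _)]
    refine integral_congr_ae (ae_of_all _ fun s => ?_)
    show Real.cos (a * t) * (φ (t + s) * Real.cos (a * (t + s))) +
      Real.sin (a * t) * (φ (t + s) * Real.sin (a * (t + s))) = φ (t + s) * Real.cos (a * s)
    have e : Real.cos (a * s) = Real.cos (a * (t + s) - a * t) := by
      congr 1
      ring
    rw [e, Real.cos_sub]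
    ring
  have e4 : C ^ 2 + D ^ 2 = ∫ t, φ t * ∫ α, φ (t + α) * Real.cos (a * α) := by
    simp_rw [← e3]
    have e : ∀ t, φ t * (Real.cos (a * t) * C + Real.sin (a * t) * D) =
        φ t * Real.cos (a * t) * C + φ t * Real.sin (a * t) * D := fun t => by ring
    simp_rw [e]
    rw [integral_add (iC0.mul_const _) (iD.mul_const _), integral_mul_const, integral_mul_const]
    ring
  rw [e2, e4]
  have hint : Integrable (Function.uncurry fun t α : ℝ => φ t * (φ (t + α) * Real.cos (a * α)))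
      (volume.prod volume) := by
    refine h.int2.mono' ?_ (ae_of_all _ fun z => ?_)
    · refine Measurable.aestronglyMeasurable ?_
      have h1 := h.meas
      unfold Function.uncurry
      fun_prop
    · show ‖φ z.1 * (φ (z.1 + z.2) * Real.cos (a * z.2))‖ ≤ φ z.1 * φ (z.1 + z.2)
      rw [← mul_assoc, Real.norm_eq_abs, abs_mul,
        abs_of_nonneg (mul_nonneg (h.nonneg _) (h.nonneg _))]
      exact mul_le_of_le_one_right (mul_nonneg (h.nonneg _) (h.nonneg _)) (Real.abs_cos_le_one _)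
  have e5 : ∫ t, φ t * ∫ α, φ (t + α) * Real.cos (a * α) =
      ∫ t, ∫ α, φ t * (φ (t + α) * Real.cos (a * α)) := by
    refine integral_congr_ae (ae_of_all _ fun t => ?_)
    exact (integral_const_mul _ _).symm
  rw [e5, integral_integral_swap hint]
  unfold fl ac
  refine integral_congr_ae (ae_of_all _ fun α => ?_)
  show ∫ t, φ t * (φ (t + α) * Real.cos (a * α)) =
    (∫ t, φ t * φ (t + α)) * Real.cos (2 * Real.pi * α * u)
  rw [← integral_mul_const]
  refine integral_congr_ae (ae_of_all _ fun t => ?_)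
  show φ t * (φ (t + α) * Real.cos (a * α)) = φ t * φ (t + α) * Real.cos (2 * Real.pi * α * u)
  have e : 2 * Real.pi * α * u = a * α := by rw [ha]; ring
  rw [e]
  ring

lemma Sy.KF_le (h : Sy φ) (u : ℝ) : ‖KF φ u‖ ≤ ∫ t, φ t := by
  unfold KF
  refine (norm_integral_le_integral_norm _).trans (le_of_eq ?_)
  refine integral_congr_ae (ae_of_all _ fun t => ?_)
  show ‖(φ t : ℂ) * Complex.exp (2 * Real.pi * u * t * Complex.I)‖ = φ t
  have e : (2 * Real.pi * u * t * Complex.I : ℂ) = ((2 * Real.pi * u * t : ℝ) : ℂ) * Complex.I := by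
    push_cast
    ring
  rw [norm_mul, e, Complex.norm_exp_ofReal_mul_I, mul_one, Complex.norm_real, Real.norm_eq_abs,
    abs_of_nonneg (h.nonneg t)]

lemma Sy.ac_total (h : Sy φ) : ∫ α, ac φ α = (∫ t, φ t) ^ 2 := by
  have h1 := h.norm_sq 0
  have e : KF φ 0 = ((∫ t, φ t : ℝ) : ℂ) := by
    unfold KF
    rw [← integral_complex_ofReal]
    refine integral_congr_ae (ae_of_all _ fun t => ?_)
    simp
  rw [e, Complex.norm_real, Real.norm_eq_abs, sq_abs] at h1
  rw [h1]
  unfold fl
  simp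

/-! ### the test function -/

lemma psi_even (δ α : ℝ) : psi δ (-α) = psi δ α := by
  unfold psi
  refine intervalIntegral.integral_congr fun R _ => ?_
  show tr (δ * R) (-α) / R = tr (δ * R) α / R
  rw [Pool.Agent.Y749.Rig.tr_even]

lemma psi_nonneg {δ : ℝ} (hδ : 0 < δ) (α : ℝ) : 0 ≤ psi δ α := by
  unfold psi
  refine intervalIntegral.integral_nonneg (by norm_num) fun R hR => ?_
  exact div_nonneg (Pool.Agent.Y749.Rig.tr_nonneg (mul_pos hδ (by linarith [hR.1])) α)
    (by linarith [hR.1])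

lemma psi_cont {δ : ℝ} (hδ : 0 < δ) : Continuous (psi δ) :=
  Pool.Agent.Y750.OM.lip_cont (psi_lip hδ)

lemma psi_integrable {δ : ℝ} (hδ : 0 < δ) : Integrable (psi δ) := by
  refine (psi_cont hδ).integrable_of_hasCompactSupport ?_
  refine HasCompactSupport.intro (isCompact_Icc (a := -(2 * δ)) (b := 2 * δ)) fun x hx => ?_
  refine psi_supp hδ x ?_
  by_contra hc
  exact hx (abs_le.1 (not_lt.1 hc))

lemma fl_kk {δ : ℝ} (hδ : 0 < δ) (hδ1 : δ ≤ 1) (α : ℝ) : fl (kk δ) α = psi δ α := by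
  have hi : Integrable (fun α : ℝ => (psi δ α : ℂ)) := (psi_integrable hδ).ofReal
  have e1 : 𝓕 (fun α : ℝ => (psi δ α : ℂ)) = fun x => ((kk δ x : ℝ) : ℂ) := by
    funext x
    rw [← fl_psi hδ]
    exact four_eq (psi_integrable hδ) (psi_even δ) x
  have hi2 : Integrable (𝓕 (fun α : ℝ => (psi δ α : ℂ))) := by
    rw [e1]; exact (kk_integrable hδ hδ1).ofReal
  have hc : Continuous (fun α : ℝ => (psi δ α : ℂ)) := Complex.continuous_ofReal.comp (psi_cont hδ)
  have h1 := congrFun (hc.fourierInv_fourier_eq hi hi2) (-α)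
  rw [Real.fourierInv_eq_fourier_neg, neg_neg, e1, four_eq (kk_integrable hδ hδ1)
    (fun x => kk_neg δ x)] at h1
  rw [psi_even] at h1
  exact_mod_cast h1

/-- the pairing with the square of the kernel -/
lemma Sy.pair (h : Sy φ) {δ : ℝ} (hδ : 0 < δ) (hδ1 : δ ≤ 1) :
    ∫ u, ‖KF φ u‖ ^ 2 * kk δ u = ∫ α, psi δ α * ac φ α := by
  simp_rw [h.norm_sq]
  rw [parseval h.ac_int (kk_integrable hδ hδ1) (ac_even φ) (kk_neg δ)]
  refine integral_congr_ae (ae_of_all _ fun α => ?_)
  show ac φ α * fl (kk δ) α = psi δ α * ac φ α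
  rw [fl_kk hδ hδ1, mul_comm]

lemma int_kk {δ : ℝ} (hδ : 0 < δ) (hδ1 : δ ≤ 1) : ∫ u, kk δ u = psi δ 0 := by
  rw [← fl_kk hδ hδ1]
  unfold fl
  simp

lemma int_psi {δ : ℝ} (hδ : 0 < δ) : ∫ α, psi δ α = Real.log 2 := by
  rw [← kk_zero δ, ← fl_psi hδ]
  unfold fl
  simp

lemma psi_zero {δ : ℝ} (hδ : 0 < δ) : psi δ 0 = 1 / (2 * δ) := by
  have e : ∀ R ∈ Set.uIcc (1 : ℝ) 2, tr (δ * R) 0 / R = (1 / δ) * R ^ (-2 : ℤ) := by
    intro R hR
    rw [uIcc_of_le one_le_two] at hR
    have hR0 : R ≠ 0 := by linarith [hR.1]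
    unfold tr
    rw [abs_zero, zero_div, sub_zero, max_eq_right zero_le_one, zpow_neg]
    rw [show (2 : ℤ) = ((2 : ℕ) : ℤ) from rfl, zpow_natCast]
    field_simp
  unfold psi
  rw [intervalIntegral.integral_congr e, intervalIntegral.integral_const_mul,
    integral_zpow (by
      right
      constructor
      · norm_num
      · rw [uIcc_of_le one_le_two]
        rintro ⟨h, -⟩
        norm_num at h)]
  norm_num

end Q241.DT
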