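import Pool.Agent.Q241.DT.L

/-! # Mixtures -/

set_option autoImplicit false

open MeasureTheory Filter Topology Set

namespace Q241.DT

open Q241.OP
open Pool.Agent.Y749.Rig (fl four_eq parseval fl_even tr)

/-- the symbols of a mixture of stationary determinantal processes with mean density one -/
structure Mix {Ω : Type*} [MeasurableSpace Ω] (μ : Measure Ω) (φ : Ω → ℝ → ℝ) : Prop where
  meas : Measurable (Function.uncurry φ)
  nonneg : ∀ ω t, 0 ≤ φ ω t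
  le_one : ∀ ω t, φ ω t ≤ 1
  int : ∀ ω, Integrable (φ ω)
  mean : ∫ ω, ∫ t, φ ω t ∂volume ∂μ = 1
  sq : Integrable (fun ω => (∫ t, φ ω t) ^ 2) μ

/-- the density of the pair correlation of a mixture -/
noncomputable def RR {Ω : Type*} [MeasurableSpace Ω] (μ : Measure Ω) (φ : Ω → ℝ → ℝ) (u : ℝ) : ℝ :=
  ∫ ω, ((∫ t, φ ω t) ^ 2 - ‖KF (φ ω) u‖ ^ 2) ∂μ

variable {Ω : Type*} [MeasurableSpace Ω] {μ : Measure Ω} {φ : Ω → ℝ → ℝ}

lemma Mix.sy (h : Mix μ φ) (ω : Ω) : Sy (φ ω) :=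
  ⟨h.meas.comp measurable_prodMk_left, h.nonneg ω, h.le_one ω, h.int ω⟩

lemma Sy.KF_cont {φ : ℝ → ℝ} (h : Sy φ) : Continuous (KF φ) := by
  unfold KF
  refine continuous_of_dominated (bound := φ) ?_ ?_ h.int ?_
  · intro u
    refine Measurable.aestronglyMeasurable ?_
    have := h.meas
    fun_prop
  · intro u
    refine ae_of_all _ fun t => ?_
    have e : (2 * Real.pi * u * t * Complex.I : ℂ) = ((2 * Real.pi * u * t : ℝ) : ℂ) * Complex.I := by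
      push_cast
      ring
    rw [norm_mul, e, Complex.norm_exp_ofReal_mul_I, mul_one, Complex.norm_real, Real.norm_eq_abs,
      abs_of_nonneg (h.nonneg t)]
  · refine ae_of_all _ fun t => ?_
    fun_prop

lemma Sy.sub_nonneg {φ : ℝ → ℝ} (h : Sy φ) (u : ℝ) : 0 ≤ (∫ t, φ t) ^ 2 - ‖KF φ u‖ ^ 2 := by
  have h1 := pow_le_pow_left₀ (norm_nonneg _) (h.KF_le u) 2
  linarith

lemma Sy.sub_le {φ : ℝ → ℝ} (_h : Sy φ) (u : ℝ) :
    (∫ t, φ t) ^ 2 - ‖KF φ u‖ ^ 2 ≤ (∫ t, φ t) ^ 2 := by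
  have h1 := sq_nonneg ‖KF φ u‖
  linarith

lemma Mix.cc_meas (h : Mix μ φ) : Measurable fun ω => ∫ t, φ ω t :=
  (h.meas.stronglyMeasurable.integral_prod_right' (ν := (volume : Measure ℝ))).measurable

lemma Mix.K_meas (h : Mix μ φ) : Measurable fun p : Ω × ℝ => ‖KF (φ p.1) p.2‖ ^ 2 := by
  have h0 := h.meas
  have h1 : Measurable fun p : (Ω × ℝ) × ℝ => ((φ p.1.1 p.2 : ℝ) : ℂ) *
      Complex.exp (2 * Real.pi * p.1.2 * p.2 * Complex.I) := by
    have h2 : Measurable fun p : (Ω × ℝ) × ℝ => φ p.1.1 p.2 :=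
      h0.comp ((measurable_fst.comp measurable_fst).prodMk measurable_snd)
    fun_prop
  have h3 := (h1.stronglyMeasurable.integral_prod_right' (ν := (volume : Measure ℝ))).measurable
  exact (h3.norm).pow_const 2

lemma Mix.R_int (h : Mix μ φ) (u : ℝ) :
    Integrable (fun ω => (∫ t, φ ω t) ^ 2 - ‖KF (φ ω) u‖ ^ 2) μ := by
  refine h.sq.mono' ?_ (ae_of_all _ fun ω => ?_)
  · exact ((h.cc_meas.pow_const 2).sub (h.K_meas.comp measurable_prodMk_right)).aestronglyMeasurable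
  · rw [Real.norm_eq_abs, abs_of_nonneg ((h.sy ω).sub_nonneg u)]
    exact (h.sy ω).sub_le u

lemma Mix.R_nonneg (h : Mix μ φ) (u : ℝ) : 0 ≤ RR μ φ u :=
  integral_nonneg fun ω => (h.sy ω).sub_nonneg u

/-- the second moment of the density -/
noncomputable def VV (μ : Measure Ω) (φ : Ω → ℝ → ℝ) : ℝ := ∫ ω, (∫ t, φ ω t) ^ 2 ∂μ

lemma VV_nonneg : 0 ≤ VV μ φ := integral_nonneg fun _ => sq_nonneg _

lemma Mix.R_le (h : Mix μ φ) (u : ℝ) : RR μ φ u ≤ VV μ φ :=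
  integral_mono (h.R_int u) h.sq fun ω => (h.sy ω).sub_le u

lemma Mix.R_cont (h : Mix μ φ) : Continuous (RR μ φ) := by
  unfold RR
  refine continuous_of_dominated (bound := fun ω => (∫ t, φ ω t) ^ 2) ?_ ?_ h.sq ?_
  · exact fun u => (h.R_int u).1
  · intro u
    refine ae_of_all _ fun ω => ?_
    rw [Real.norm_eq_abs, abs_of_nonneg ((h.sy ω).sub_nonneg u)]
    exact (h.sy ω).sub_le u
  · exact ae_of_all _ fun ω => continuous_const.sub (((h.sy ω).KF_cont.norm).pow 2)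

lemma Mix.R_even (h : Mix μ φ) (u : ℝ) : RR μ φ (-u) = RR μ φ u := by
  unfold RR
  refine integral_congr_ae (ae_of_all _ fun ω => ?_)
  show (∫ t, φ ω t) ^ 2 - ‖KF (φ ω) (-u)‖ ^ 2 = (∫ t, φ ω t) ^ 2 - ‖KF (φ ω) u‖ ^ 2
  rw [(h.sy ω).norm_sq, (h.sy ω).norm_sq, fl_even]

/-- the cumulative density -/
noncomputable def PP (μ : Measure Ω) (φ : Ω → ℝ → ℝ) (y : ℝ) : ℝ := ∫ u in (0 : ℝ)..y, RR μ φ u

lemma Mix.P_deriv (h : Mix μ φ) (y : ℝ) : HasDerivAt (PP μ φ) (RR μ φ y) y :=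
  intervalIntegral.integral_hasDerivAt_right (h.R_cont.intervalIntegrable _ _)
    (h.R_cont.stronglyMeasurableAtFilter _ _) h.R_cont.continuousAt

lemma Mix.P_cont (h : Mix μ φ) : Continuous (PP μ φ) :=
  continuous_iff_continuousAt.2 fun y => (h.P_deriv y).continuousAt

lemma P_zero : PP μ φ 0 = 0 := intervalIntegral.integral_same

lemma Mix.P_nonneg (h : Mix μ φ) {y : ℝ} (hy : 0 ≤ y) : 0 ≤ PP μ φ y :=
  intervalIntegral.integral_nonneg hy fun u _ => h.R_nonneg u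

lemma Mix.P_le (h : Mix μ φ) {y : ℝ} (hy : 0 ≤ y) : PP μ φ y ≤ VV μ φ * y := by
  unfold PP
  have h1 := intervalIntegral.integral_mono_on (a := 0) (b := y) (μ := volume) hy
    (h.R_cont.intervalIntegrable _ _) (intervalIntegrable_const (c := VV μ φ))
    fun u _ => h.R_le u
  rw [intervalIntegral.integral_const, sub_zero, smul_eq_mul, mul_comm] at h1
  exact h1

lemma Mix.P_g_int (h : Mix μ φ) {δ : ℝ} (hδ : 0 < δ) (hδ1 : δ ≤ 1) :
    IntegrableOn (fun x => PP μ φ x * g δ x) (Ioi 0) :=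
  mul_g_int hδ hδ1 h.P_cont.measurable (C := VV μ φ) fun x hx => by
    rw [abs_of_nonneg (h.P_nonneg hx.le)]
    exact h.P_le hx.le

lemma Mix.P_tend (h : Mix μ φ) {δ : ℝ} (hδ : 0 < δ) (hδ1 : δ ≤ 1) :
    Tendsto (kk δ * PP μ φ) atTop (𝓝 0) := by
  have h1 : Tendsto (fun x : ℝ => 2 / δ ^ 2 * VV μ φ * x⁻¹) atTop (𝓝 (2 / δ ^ 2 * VV μ φ * 0)) :=
    tendsto_inv_atTop_zero.const_mul _
  rw [mul_zero] at h1
  refine squeeze_zero' ?_ ?_ h1
  · filter_upwards [eventually_ge_atTop (0 : ℝ)] with x hx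
    exact mul_nonneg (kk_nonneg δ x) (h.P_nonneg hx)
  · filter_upwards [eventually_gt_atTop (0 : ℝ)] with x hx
    have h2 := kk_dec hδ hδ1 x
    have h3 := h.P_le hx.le
    have h4 := h.P_nonneg hx.le
    have hV : 0 ≤ VV μ φ := VV_nonneg
    show kk δ x * PP μ φ x ≤ _
    have h5 : 2 / δ ^ 2 / (1 + x ^ 2) * (VV μ φ * x) ≤ 2 / δ ^ 2 * VV μ φ * x⁻¹ := by
      have h6 : x / (1 + x ^ 2) ≤ x⁻¹ := by
        rw [div_le_iff₀ (by positivity)]
        have h7 : x⁻¹ * (1 + x ^ 2) = x⁻¹ + x := by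
          field_simp
        rw [h7]
        have : 0 < x⁻¹ := inv_pos.2 hx
        linarith
      calc 2 / δ ^ 2 / (1 + x ^ 2) * (VV μ φ * x) = 2 / δ ^ 2 * VV μ φ * (x / (1 + x ^ 2)) := by ring
        _ ≤ _ := mul_le_mul_of_nonneg_left h6 (by positivity)
    exact (mul_le_mul h2 h3 h4 (by positivity)).trans h5

/-- integration by parts -/
lemma Mix.parts (h : Mix μ φ) {δ : ℝ} (hδ : 0 < δ) (hδ1 : δ ≤ 1) :
    ∫ u in Ioi (0 : ℝ), kk δ u * RR μ φ u = ∫ u in Ioi (0 : ℝ), PP μ φ u * g δ u := by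
  have i1 : IntegrableOn (kk δ * RR μ φ) (Ioi 0) := by
    refine Integrable.integrableOn ?_
    refine ((kk_integrable hδ hδ1).mul_const (VV μ φ)).mono'
      ((kk_cont δ).mul h.R_cont).aestronglyMeasurable (ae_of_all _ fun x => ?_)
    show ‖kk δ x * RR μ φ x‖ ≤ kk δ x * VV μ φ
    rw [Real.norm_eq_abs, abs_of_nonneg (mul_nonneg (kk_nonneg _ _) (h.R_nonneg _))]
    exact mul_le_mul_of_nonneg_left (h.R_le _) (kk_nonneg _ _)
  have i2 : IntegrableOn ((fun x => -g δ x) * PP μ φ) (Ioi 0) := by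
    have := (h.P_g_int hδ hδ1).neg
    refine this.congr (ae_of_all _ fun x => ?_)
    show -(PP μ φ x * g δ x) = -g δ x * PP μ φ x
    ring
  have h1 := integral_Ioi_mul_deriv_eq_deriv_mul (a := (0 : ℝ)) (u := kk δ) (v := PP μ φ)
    (u' := fun x => -g δ x) (v' := RR μ φ) (a' := 0) (b' := 0) (fun x hx => kk_deriv hx)
    (fun x _ => h.P_deriv x) i1 i2 (by
      have hc : ContinuousAt (kk δ * PP μ φ) 0 := ((kk_cont δ).mul h.P_cont).continuousAt
      have h0 : (kk δ * PP μ φ) 0 = 0 := by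
        show kk δ 0 * PP μ φ 0 = 0
        rw [P_zero, mul_zero]
      have h1 := hc.tendsto
      rw [h0] at h1
      exact h1.mono_left nhdsWithin_le_nhds) (h.P_tend hδ hδ1)
  rw [h1, sub_zero, zero_sub, ← integral_neg]
  refine integral_congr_ae (ae_of_all _ fun x => ?_)
  show -(-g δ x * PP μ φ x) = PP μ φ x * g δ x
  ring

lemma Mix.whole (h : Mix μ φ) {δ : ℝ} (hδ : 0 < δ) (hδ1 : δ ≤ 1) :
    ∫ y in Ioi (0 : ℝ), 2 * PP μ φ y * g δ y = ∫ u, kk δ u * RR μ φ u := by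
  have e0 : ∫ y in Ioi (0 : ℝ), 2 * PP μ φ y * g δ y = 2 * ∫ y in Ioi (0 : ℝ), PP μ φ y * g δ y := by
    rw [← integral_const_mul]
    refine integral_congr_ae (ae_of_all _ fun x => ?_)
    show 2 * PP μ φ x * g δ x = 2 * (PP μ φ x * g δ x)
    ring
  rw [e0, ← h.parts hδ hδ1, ← integral_comp_abs (f := fun u => kk δ u * RR μ φ u)]
  refine integral_congr_ae (ae_of_all _ fun x => ?_)
  show kk δ |x| * RR μ φ |x| = kk δ x * RR μ φ x
  rcases abs_choice x with h1 | h1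
  · rw [h1]
  · rw [h1, kk_neg, h.R_even]

/-- the mean of the pairing with the autocorrelation -/
noncomputable def EQ (μ : Measure Ω) (φ : Ω → ℝ → ℝ) (δ : ℝ) : ℝ :=
  ∫ ω, (∫ α, psi δ α * ac (φ ω) α) ∂μ

lemma Mix.ac_meas (h : Mix μ φ) : Measurable fun p : Ω × ℝ => ac (φ p.1) p.2 := by
  have h0 := h.meas
  have h2 : Measurable fun p : (Ω × ℝ) × ℝ => p.1.1 := measurable_fst.comp measurable_fst
  have h3 : Measurable fun p : (Ω × ℝ) × ℝ => p.2 + p.1.2 :=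
    measurable_snd.add (measurable_snd.comp measurable_fst)
  have h4 : Measurable fun p : (Ω × ℝ) × ℝ => φ p.1.1 (p.2 + p.1.2) := h0.comp (h2.prodMk h3)
  have h5 : Measurable fun p : (Ω × ℝ) × ℝ => φ p.1.1 p.2 := h0.comp (h2.prodMk measurable_snd)
  have h1 : Measurable fun p : (Ω × ℝ) × ℝ => φ p.1.1 p.2 * φ p.1.1 (p.2 + p.1.2) := h5.mul h4
  exact (h1.stronglyMeasurable.integral_prod_right' (ν := (volume : Measure ℝ))).measurable

lemma Mix.pa_meas (h : Mix μ φ) {δ : ℝ} (hδ : 0 < δ) :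
    Measurable fun ω => ∫ α, psi δ α * ac (φ ω) α := by
  have h1 : Measurable fun p : Ω × ℝ => psi δ p.2 * ac (φ p.1) p.2 :=
    ((psi_cont hδ).measurable.comp measurable_snd).mul h.ac_meas
  exact (h1.stronglyMeasurable.integral_prod_right' (ν := (volume : Measure ℝ))).measurable

lemma Sy.pa_int {φ : ℝ → ℝ} (h : Sy φ) {δ : ℝ} (hδ : 0 < δ) :
    Integrable fun α => psi δ α * ac φ α := by
  refine (h.ac_int.const_mul (1 / δ)).mono'
    ((psi_cont hδ).aestronglyMeasurable.mul h.ac_int.1) (ae_of_all _ fun α => ?_)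
  rw [Real.norm_eq_abs, abs_mul, abs_of_nonneg (h.ac_nonneg α)]
  exact mul_le_mul_of_nonneg_right (psi_bd hδ α) (h.ac_nonneg α)

lemma Sy.pa_nonneg {φ : ℝ → ℝ} (h : Sy φ) {δ : ℝ} (hδ : 0 < δ) :
    0 ≤ ∫ α, psi δ α * ac φ α :=
  integral_nonneg fun α => mul_nonneg (psi_nonneg hδ α) (h.ac_nonneg α)

lemma Sy.pa_le {φ : ℝ → ℝ} (h : Sy φ) {δ : ℝ} (hδ : 0 < δ) :
    ∫ α, psi δ α * ac φ α ≤ Real.log 2 * ∫ t, φ t ^ 2 := by
  rw [← int_psi hδ, ← integral_mul_const]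
  refine integral_mono (h.pa_int hδ) ((psi_integrable hδ).mul_const _) fun α => ?_
  exact mul_le_mul_of_nonneg_left (h.ac_le α) (psi_nonneg hδ α)

lemma Mix.cc_int (h : Mix μ φ) : Integrable (fun ω => ∫ t, φ ω t) μ := by
  by_contra hc
  have h1 := h.mean
  rw [integral_undef hc] at h1
  norm_num at h1

lemma Mix.sq2_meas (h : Mix μ φ) : Measurable fun ω => ∫ t, φ ω t ^ 2 := by
  have h1 : Measurable fun p : Ω × ℝ => φ p.1 p.2 ^ 2 := h.meas.pow_const 2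
  exact (h1.stronglyMeasurable.integral_prod_right' (ν := (volume : Measure ℝ))).measurable

lemma Mix.sq2_int (h : Mix μ φ) : Integrable (fun ω => ∫ t, φ ω t ^ 2) μ := by
  refine h.cc_int.mono' h.sq2_meas.aestronglyMeasurable (ae_of_all _ fun ω => ?_)
  rw [Real.norm_eq_abs, abs_of_nonneg (integral_nonneg fun t => sq_nonneg _)]
  exact (h.sy ω).sq_le

lemma Mix.pa_int (h : Mix μ φ) {δ : ℝ} (hδ : 0 < δ) :
    Integrable (fun ω => ∫ α, psi δ α * ac (φ ω) α) μ := by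
  refine (h.sq2_int.const_mul (Real.log 2)).mono' (h.pa_meas hδ).aestronglyMeasurable
    (ae_of_all _ fun ω => ?_)
  rw [Real.norm_eq_abs, abs_of_nonneg ((h.sy ω).pa_nonneg hδ)]
  exact (h.sy ω).pa_le hδ

lemma Mix.EQ_le (h : Mix μ φ) {δ : ℝ} (hδ : 0 < δ) :
    EQ μ φ δ ≤ Real.log 2 * ∫ ω, (∫ t, φ ω t ^ 2) ∂μ := by
  unfold EQ
  rw [← integral_const_mul]
  exact integral_mono (h.pa_int hδ) (h.sq2_int.const_mul _) fun ω => (h.sy ω).pa_le hδ

lemma Mix.sq2_le (h : Mix μ φ) : ∫ ω, (∫ t, φ ω t ^ 2) ∂μ ≤ 1 := by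
  rw [← h.mean]
  exact integral_mono h.sq2_int h.cc_int fun ω => (h.sy ω).sq_le

/-- **the pairing of the pair density of a mixture with the test function** -/
lemma Mix.pairing [IsFiniteMeasure μ] (h : Mix μ φ) {δ : ℝ} (hδ : 0 < δ) (hδ1 : δ ≤ 1) :
    ∫ y in Ioi (0 : ℝ), 2 * PP μ φ y * g δ y = VV μ φ / (2 * δ) - EQ μ φ δ := by
  rw [h.whole hδ hδ1]
  have hsw : Measurable fun z : ℝ × Ω => ((z.2, z.1) : Ω × ℝ) := measurable_snd.prodMk measurable_fst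
  have hK : Measurable fun z : ℝ × Ω => ‖KF (φ z.2) z.1‖ ^ 2 := h.K_meas.comp hsw
  have hC : Measurable fun z : ℝ × Ω => (∫ t, φ z.2 t) ^ 2 :=
    (h.cc_meas.comp measurable_snd).pow_const 2
  have hk : Measurable fun z : ℝ × Ω => kk δ z.1 := (kk_cont δ).measurable.comp measurable_fst
  have hm : Measurable fun z : ℝ × Ω => kk δ z.1 * ((∫ t, φ z.2 t) ^ 2 - ‖KF (φ z.2) z.1‖ ^ 2) :=
    hk.mul (hC.sub hK)
  have hint : Integrable (Function.uncurry fun (u : ℝ) (ω : Ω) =>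
      kk δ u * ((∫ t, φ ω t) ^ 2 - ‖KF (φ ω) u‖ ^ 2)) (volume.prod μ) := by
    refine ((kk_integrable hδ hδ1).mul_prod h.sq).mono' ?_ (ae_of_all _ fun z => ?_)
    · exact hm.aestronglyMeasurable
    · show ‖kk δ z.1 * ((∫ t, φ z.2 t) ^ 2 - ‖KF (φ z.2) z.1‖ ^ 2)‖ ≤ kk δ z.1 * (∫ t, φ z.2 t) ^ 2
      rw [Real.norm_eq_abs, abs_of_nonneg (mul_nonneg (kk_nonneg _ _) ((h.sy _).sub_nonneg _))]
      exact mul_le_mul_of_nonneg_left ((h.sy _).sub_le _) (kk_nonneg _ _)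
  have e1 : ∫ u, kk δ u * RR μ φ u =
      ∫ u, ∫ ω, kk δ u * ((∫ t, φ ω t) ^ 2 - ‖KF (φ ω) u‖ ^ 2) ∂μ := by
    refine integral_congr_ae (ae_of_all _ fun u => ?_)
    exact (integral_const_mul _ _).symm
  rw [e1, integral_integral_swap hint]
  have e2 : ∀ ω, ∫ u, kk δ u * ((∫ t, φ ω t) ^ 2 - ‖KF (φ ω) u‖ ^ 2) =
      (∫ t, φ ω t) ^ 2 / (2 * δ) - ∫ α, psi δ α * ac (φ ω) α := by
    intro ω
    have hs := h.sy ω
    have i1 : Integrable fun u => kk δ u * (∫ t, φ ω t) ^ 2 := (kk_integrable hδ hδ1).mul_const _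
    have i2 : Integrable fun u => ‖KF (φ ω) u‖ ^ 2 * kk δ u := by
      refine ((kk_integrable hδ hδ1).const_mul ((∫ t, φ ω t) ^ 2)).mono'
        (((hs.KF_cont.norm).pow 2).mul (kk_cont δ)).aestronglyMeasurable (ae_of_all _ fun u => ?_)
      rw [Real.norm_eq_abs, abs_of_nonneg (mul_nonneg (sq_nonneg _) (kk_nonneg _ _))]
      exact mul_le_mul_of_nonneg_right (pow_le_pow_left₀ (norm_nonneg _) (hs.KF_le u) 2)
        (kk_nonneg _ _)
    have e3 : ∀ u, kk δ u * ((∫ t, φ ω t) ^ 2 - ‖KF (φ ω) u‖ ^ 2) =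
        kk δ u * (∫ t, φ ω t) ^ 2 - ‖KF (φ ω) u‖ ^ 2 * kk δ u := fun u => by ring
    simp_rw [e3]
    rw [integral_sub i1 i2, integral_mul_const, int_kk hδ hδ1, psi_zero hδ, hs.pair hδ hδ1]
    ring
  simp_rw [e2]
  rw [integral_sub (h.sq.div_const _) (h.pa_int hδ), integral_div]
  rfl

end Q241.DT
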