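import Pool.Agent.Q241.DT.B

/-! # Lower bounds for the pair counts -/

set_option autoImplicit false

open MeasureTheory Filter Topology Set

namespace Q241.DT

open Q241.OP
open H370 TH803TW Pool.Agent.Y744
open Pool.Agent.Y750.OM (NO bl)

variable {Ω : Type*} [MeasurableSpace Ω] {μ : Measure Ω} {φ : Ω → ℝ → ℝ}

/-- the cumulative lower bound at large distances, with an exponentially small loss -/
def LowD (μ : Measure Ω) (φ : Ω → ℝ → ℝ) (C0 c a0 : ℝ) : Prop :=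
  ∀ y, a0 ≤ y → ∀ ε : ℝ, 0 < ε → ∀ᶠ T in atTop,
    2 * PP μ φ y - C0 * Real.exp (-(c * y)) - ε ≤ Dn T y

lemma Mix.P2_int (h : Mix μ φ) {δ : ℝ} (hδ : 0 < δ) (hδ1 : δ ≤ 1) :
    IntegrableOn (fun y => 2 * PP μ φ y * g δ y) (Ioi 0) := by
  refine ((h.P_g_int hδ hδ1).const_mul 2).congr (ae_of_all _ fun y => ?_)
  show 2 * (PP μ φ y * g δ y) = 2 * PP μ φ y * g δ y
  ring

lemma Mix.deficit (h : Mix μ φ) {C0 c a0 : ℝ} (hC0 : 0 ≤ C0) (ha0 : 0 < a0)
    (hl : LowD μ φ C0 c a0) {δ : ℝ} (hδ : 0 < δ) (hδ1 : δ ≤ 1) :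
    Tendsto (fun T => ∫ y in Ioi a0,
      max 0 (2 * PP μ φ y - C0 * Real.exp (-(c * y)) - Dn T y) * g δ y) atTop (𝓝 0) := by
  have hsub : Ioi a0 ⊆ Ioi (0 : ℝ) := Ioi_subset_Ioi ha0.le
  have h0 : ∫ y in Ioi a0, (0 : ℝ) * g δ y = 0 := by simp
  suffices hs : Tendsto (fun T => ∫ y in Ioi a0,
      max 0 (2 * PP μ φ y - C0 * Real.exp (-(c * y)) - Dn T y) * g δ y) atTop
      (𝓝 (∫ y in Ioi a0, (0 : ℝ) * g δ y)) by rwa [h0] at hs
  have hm : Measurable fun y => 2 * PP μ φ y - C0 * Real.exp (-(c * y)) := by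
    have := h.P_cont.measurable
    fun_prop
  refine tendsto_integral_filter_of_dominated_convergence (fun y => 2 * PP μ φ y * g δ y) ?_ ?_ ?_ ?_
  · filter_upwards [eventually_gt_atTop (1 : ℝ)] with T hT
    refine Measurable.aestronglyMeasurable ?_
    exact (measurable_const.max (hm.sub (Dn_meas hT))).mul (g_meas δ)
  · filter_upwards [eventually_gt_atTop (1 : ℝ)] with T hT
    filter_upwards [self_mem_ae_restrict measurableSet_Ioi] with y hy
    have hy0 : 0 < y := hsub hy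
    rw [Real.norm_eq_abs, abs_of_nonneg (mul_nonneg (le_max_left _ _) (g_nonneg hy0.le))]
    refine mul_le_mul_of_nonneg_right ?_ (g_nonneg hy0.le)
    have h1 := Dn_nonneg hT hy0.le
    have h2 := h.P_nonneg hy0.le
    have h3 : 0 ≤ C0 * Real.exp (-(c * y)) := by positivity
    exact max_le (by linarith) (by linarith)
  · exact (h.P2_int hδ hδ1).mono_set hsub
  · filter_upwards [self_mem_ae_restrict measurableSet_Ioi] with y hy
    refine Tendsto.mul_const _ ?_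
    rw [Metric.tendsto_nhds]
    intro ε hε
    filter_upwards [hl y (le_of_lt hy) (ε / 2) (by positivity)] with T hT
    rw [Real.dist_eq, sub_zero, abs_of_nonneg (le_max_left _ _)]
    exact max_lt hε (by linarith)

lemma pi_sq_le : Real.pi ^ 2 ≤ 10 := by nlinarith [Real.pi_lt_d2, Real.pi_pos]

lemma g_le_lin {δ y : ℝ} (hy : 0 < y) : g δ y ≤ 10 * δ ^ 2 * y := by
  have h1 := mul_g_le' (δ := δ) hy
  have h2 : y * g δ y ≤ y * (10 * δ ^ 2 * y) := by
    refine h1.trans ?_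
    have e : (Real.pi * (δ * y)) ^ 2 = Real.pi ^ 2 * (δ ^ 2 * y ^ 2) := by ring
    rw [e]
    have h3 := mul_le_mul_of_nonneg_right pi_sq_le (by positivity : 0 ≤ δ ^ 2 * y ^ 2)
    refine h3.trans (le_of_eq ?_)
    ring
  exact le_of_mul_le_mul_left h2 hy

lemma exp_g {c a0 : ℝ} (hc : 0 < c) (ha0 : 0 < a0) {δ : ℝ} (hδ : 0 < δ) (hδ1 : δ ≤ 1) :
    IntegrableOn (fun y => Real.exp (-(c * y)) * g δ y) (Ioi a0) ∧
    ∫ y in Ioi a0, Real.exp (-(c * y)) * g δ y ≤
      20 / c * (∫ y in Ioi a0, Real.exp (-(c / 2) * y)) * δ ^ 2 := by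
  have hI : IntegrableOn (fun y => Real.exp (-(c / 2) * y)) (Ioi a0) :=
    exp_neg_integrableOn_Ioi a0 (by positivity)
  have hb : ∀ y ∈ Ioi a0, Real.exp (-(c * y)) * g δ y ≤
      20 / c * δ ^ 2 * Real.exp (-(c / 2) * y) := by
    intro y hy
    have hy0 : 0 < y := ha0.trans hy
    have h1 : y ≤ 2 / c * Real.exp (c / 2 * y) := by
      have h2 := Real.add_one_le_exp (c / 2 * y)
      rw [div_mul_eq_mul_div, le_div_iff₀ hc]
      linarith
    have h2 : Real.exp (-(c * y)) * g δ y ≤ Real.exp (-(c * y)) * (10 * δ ^ 2 * y) :=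
      mul_le_mul_of_nonneg_left (g_le_lin hy0) (Real.exp_pos _).le
    have h3 : Real.exp (-(c * y)) * (10 * δ ^ 2 * y) ≤
        Real.exp (-(c * y)) * (10 * δ ^ 2 * (2 / c * Real.exp (c / 2 * y))) := by
      gcongr
    refine (h2.trans h3).trans (le_of_eq ?_)
    have e : Real.exp (-(c / 2) * y) = Real.exp (-(c * y)) * Real.exp (c / 2 * y) := by
      rw [← Real.exp_add]
      congr 1
      ring
    rw [e]
    ring
  have i1 : IntegrableOn (fun y => Real.exp (-(c * y)) * g δ y) (Ioi a0) := by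
    refine (hI.const_mul (20 / c * δ ^ 2)).mono' ?_ ?_
    · refine Measurable.aestronglyMeasurable ?_
      have := g_meas δ
      fun_prop
    · filter_upwards [self_mem_ae_restrict measurableSet_Ioi] with y hy
      rw [Real.norm_eq_abs, abs_of_nonneg (mul_nonneg (Real.exp_pos _).le
        (g_nonneg (ha0.trans hy).le))]
      exact hb y hy
  refine ⟨i1, ?_⟩
  refine (setIntegral_mono_on i1 (hI.const_mul _) measurableSet_Ioi hb).trans (le_of_eq ?_)
  rw [integral_const_mul]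
  ring

/-- lower bound for the pairing of the pair counts -/
lemma Mix.low_lim (h : Mix μ φ) {C0 c a0 : ℝ} (hC0 : 0 ≤ C0) (hc : 0 < c) (ha0 : 0 < a0)
    (hl : LowD μ φ C0 c a0) : ∃ C3 : ℝ, 0 ≤ C3 ∧ ∀ δ : ℝ, 0 < δ → δ ≤ 1 → ∀ ε : ℝ, 0 < ε →
      ∀ᶠ T in atTop, (∫ y in Ioi (0 : ℝ), 2 * PP μ φ y * g δ y) - C3 * δ ^ 2 - ε ≤
        ∫ y in Ioi (0 : ℝ), Dn T y * g δ y := by
  have hV : 0 ≤ VV μ φ := VV_nonneg
  have hI0 : 0 ≤ ∫ y in Ioi a0, Real.exp (-(c / 2) * y) := integral_nonneg fun y => (Real.exp_pos _).le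
  refine ⟨20 * VV μ φ * a0 ^ 3 + C0 * (20 / c * ∫ y in Ioi a0, Real.exp (-(c / 2) * y)),
    by positivity, fun δ hδ hδ1 ε hε => ?_⟩
  have hsub : Ioi a0 ⊆ Ioi (0 : ℝ) := Ioi_subset_Ioi ha0.le
  have hP := h.P2_int hδ hδ1
  obtain ⟨iE, hE⟩ := exp_g hc ha0 hδ hδ1
  -- the near part
  have hnear : ∫ y in Ioc 0 a0, 2 * PP μ φ y * g δ y ≤ 20 * VV μ φ * a0 ^ 3 * δ ^ 2 := by
    have h2 : IntegrableOn (fun _ : ℝ => 20 * VV μ φ * a0 ^ 2 * δ ^ 2) (Ioc 0 a0) :=
      continuous_const.integrableOn_Ioc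
    have h3 := setIntegral_mono_on (hP.mono_set Ioc_subset_Ioi_self) h2 measurableSet_Ioc
      fun y hy => by
        have hy0 : 0 < y := hy.1
        have h4 := h.P_le hy0.le
        have h5 := g_le_lin (δ := δ) hy0
        have h6 := g_nonneg (δ := δ) hy0.le
        have h7 : PP μ φ y * g δ y ≤ (VV μ φ * y) * (10 * δ ^ 2 * y) :=
          mul_le_mul h4 h5 h6 (by positivity)
        have h8 : y ^ 2 ≤ a0 ^ 2 := pow_le_pow_left₀ hy0.le hy.2 2
        have h9 : 10 * VV μ φ * δ ^ 2 * y ^ 2 ≤ 10 * VV μ φ * δ ^ 2 * a0 ^ 2 :=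
          mul_le_mul_of_nonneg_left h8 (by positivity)
        show 2 * PP μ φ y * g δ y ≤ 20 * VV μ φ * a0 ^ 2 * δ ^ 2
        linarith
    refine h3.trans (le_of_eq ?_)
    rw [setIntegral_const]
    simp only [Measure.real, Real.volume_Ioc, sub_zero, smul_eq_mul, ENNReal.toReal_ofReal ha0.le]
    ring
  filter_upwards [(tendsto_order.1 (h.deficit hC0 ha0 hl hδ hδ1)).2 ε hε,
    eventually_gt_atTop (1 : ℝ)] with T b2 hT
  have hDi := Dn_g_int hT hδ hδ1
  have d1 : ∫ y in Ioi a0, Dn T y * g δ y ≤ ∫ y in Ioi (0 : ℝ), Dn T y * g δ y := by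
    refine setIntegral_mono_set hDi ?_ (LE.le.eventuallyLE hsub)
    filter_upwards [self_mem_ae_restrict measurableSet_Ioi] with y hy
    exact mul_nonneg (Dn_nonneg hT (le_of_lt hy)) (g_nonneg (le_of_lt hy))
  set ψ : ℝ → ℝ := fun y => max 0 (2 * PP μ φ y - C0 * Real.exp (-(c * y)) - Dn T y) with hψ
  have hψm : Measurable ψ := by
    have hm : Measurable fun y => 2 * PP μ φ y - C0 * Real.exp (-(c * y)) := by
      have := h.P_cont.measurable
      fun_prop
    exact measurable_const.max (hm.sub (Dn_meas hT))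
  have hψi : IntegrableOn (fun y => ψ y * g δ y) (Ioi a0) := by
    refine (hP.mono_set hsub).mono' (hψm.mul (g_meas δ)).aestronglyMeasurable ?_
    filter_upwards [self_mem_ae_restrict measurableSet_Ioi] with y hy
    have hy0 : 0 < y := hsub hy
    rw [Real.norm_eq_abs, abs_of_nonneg (mul_nonneg (le_max_left _ _) (g_nonneg hy0.le))]
    refine mul_le_mul_of_nonneg_right ?_ (g_nonneg hy0.le)
    have h1 := Dn_nonneg hT hy0.le
    have h2 := h.P_nonneg hy0.le
    have h3 : 0 ≤ C0 * Real.exp (-(c * y)) := by positivity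
    exact max_le (by linarith) (by linarith)
  have d2 : (∫ y in Ioi a0, 2 * PP μ φ y * g δ y) -
      C0 * (∫ y in Ioi a0, Real.exp (-(c * y)) * g δ y) - ∫ y in Ioi a0, ψ y * g δ y ≤
      ∫ y in Ioi a0, Dn T y * g δ y := by
    have i1 : IntegrableOn (fun y => 2 * PP μ φ y * g δ y) (Ioi a0) := hP.mono_set hsub
    have i2 : IntegrableOn (fun y => C0 * (Real.exp (-(c * y)) * g δ y)) (Ioi a0) :=
      iE.const_mul _
    have i3 : IntegrableOn (fun y => 2 * PP μ φ y * g δ y - C0 * (Real.exp (-(c * y)) * g δ y))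
      (Ioi a0) := i1.sub i2
    have i4 : IntegrableOn (fun y => 2 * PP μ φ y * g δ y - C0 * (Real.exp (-(c * y)) * g δ y) -
      ψ y * g δ y) (Ioi a0) := i3.sub hψi
    rw [← integral_const_mul, ← integral_sub i1 i2, ← integral_sub i3 hψi]
    refine setIntegral_mono_on i4 (hDi.mono_set hsub) measurableSet_Ioi fun y hy => ?_
    have hy0 : 0 < y := hsub hy
    have h1 := g_nonneg (δ := δ) hy0.le
    have h2 : 2 * PP μ φ y - C0 * Real.exp (-(c * y)) - Dn T y ≤ ψ y := le_max_right _ _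
    have h3 := mul_le_mul_of_nonneg_right h2 h1
    show 2 * PP μ φ y * g δ y - C0 * (Real.exp (-(c * y)) * g δ y) - ψ y * g δ y ≤ Dn T y * g δ y
    linarith
  have d3 : ∫ y in Ioi (0 : ℝ), 2 * PP μ φ y * g δ y =
      (∫ y in Ioc 0 a0, 2 * PP μ φ y * g δ y) + ∫ y in Ioi a0, 2 * PP μ φ y * g δ y := by
    rw [← setIntegral_union (Ioc_disjoint_Ioi le_rfl) measurableSet_Ioi
      (hP.mono_set Ioc_subset_Ioi_self) (hP.mono_set hsub), Ioc_union_Ioi_eq_Ioi ha0.le]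
  have d4 := mul_le_mul_of_nonneg_left hE hC0
  have e3 : (20 * VV μ φ * a0 ^ 3 + C0 * (20 / c * ∫ y in Ioi a0, Real.exp (-(c / 2) * y))) *
      δ ^ 2 = 20 * VV μ φ * a0 ^ 3 * δ ^ 2 +
        C0 * (20 / c * (∫ y in Ioi a0, Real.exp (-(c / 2) * y)) * δ ^ 2) := by ring
  rw [e3]
  linarith

/-! ### the first absolute moment of the test function -/

/-- the first absolute moment -/
noncomputable def mm (δ : ℝ) : ℝ := ∫ α : ℝ, |α| * psi δ α

lemma abs_psi_int {δ : ℝ} (hδ : 0 < δ) : Integrable fun α : ℝ => |α| * psi δ α := by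
  refine (continuous_abs.mul (psi_cont hδ)).integrable_of_hasCompactSupport ?_
  refine HasCompactSupport.intro (isCompact_Icc (a := -(2 * δ)) (b := 2 * δ)) fun x hx => ?_
  have : psi δ x = 0 := by
    refine psi_supp hδ x ?_
    by_contra hc
    exact hx (abs_le.1 (not_lt.1 hc))
  show |x| * psi δ x = 0
  rw [this, mul_zero]

lemma psi_scale {δ : ℝ} (hδ : 0 < δ) (α : ℝ) : psi δ (δ * α) = δ⁻¹ * psi 1 α := by
  unfold psi
  rw [← intervalIntegral.integral_const_mul]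
  refine intervalIntegral.integral_congr fun R hR => ?_
  rw [uIcc_of_le one_le_two] at hR
  have hR0 : R ≠ 0 := by linarith [hR.1]
  show Pool.Agent.Y749.Rig.tr (δ * R) (δ * α) / R =
    δ⁻¹ * (Pool.Agent.Y749.Rig.tr (1 * R) α / R)
  unfold Pool.Agent.Y749.Rig.tr
  rw [one_mul, abs_mul, abs_of_pos hδ, mul_div_mul_left _ _ hδ.ne']
  field_simp

lemma mm_scale {δ : ℝ} (hδ : 0 < δ) : mm δ = δ * mm 1 := by
  unfold mm
  have h := Measure.integral_comp_mul_left (fun α : ℝ => |α| * psi δ α) δ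
  have e1 : ∀ α : ℝ, |δ * α| * psi δ (δ * α) = |α| * psi 1 α := by
    intro α
    rw [psi_scale hδ, abs_mul, abs_of_pos hδ]
    field_simp
  simp_rw [e1] at h
  rw [abs_of_pos (inv_pos.2 hδ), smul_eq_mul] at h
  rw [h, ← mul_assoc, mul_inv_cancel₀ hδ.ne', one_mul]

lemma mm_pos : 0 < mm 1 := by
  unfold mm
  have hc : Continuous fun α : ℝ => |α| * psi 1 α := continuous_abs.mul (psi_cont one_pos)
  have h0 : 0 ≤ fun α : ℝ => |α| * psi 1 α := fun α =>
    mul_nonneg (abs_nonneg _) (psi_nonneg one_pos α)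
  rw [integral_pos_iff_support_of_nonneg h0 (abs_psi_int one_pos)]
  refine (isOpen_compl_singleton.preimage hc).measure_pos volume ?_
  have h1 := (psi_cont one_pos).tendsto 0
  rw [psi_zero one_pos] at h1
  have h2 : ∀ᶠ α in 𝓝 (0 : ℝ), 0 < psi 1 α := (tendsto_order.1 h1).1 0 (by norm_num)
  obtain ⟨ε, hε, h3⟩ := Metric.eventually_nhds_iff.1 h2
  refine ⟨ε / 2, ?_⟩
  have h4 : 0 < psi 1 (ε / 2) := h3 (by
    rw [Real.dist_eq, sub_zero, abs_of_pos (by positivity)]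
    linarith)
  show |ε / 2| * psi 1 (ε / 2) ∈ ({0} : Set ℝ)ᶜ
  rw [mem_compl_iff, mem_singleton_iff]
  have h5 : 0 < |ε / 2| := abs_pos.2 (by positivity)
  exact (mul_pos h5 h4).ne'

lemma mo_psi {δ : ℝ} (hδ : 0 < δ) : mo (psi δ) = 1 / (2 * δ) + δ * mm 1 := by
  unfold mo
  rw [psi_zero hδ, ← mm_scale hδ]
  rfl

end Q241.DT
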