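import Pool.Agent.Q241.DT.C

/-! # The lower bound identifies the mixture -/

set_option autoImplicit false

open MeasureTheory Filter Topology Set

namespace Q241.DT

open Q241.OP
open H370 TH803TW Pool.Agent.Y744
open Pool.Agent.Y750.OM (NO bl)

variable {Ω : Type*} [MeasurableSpace Ω] {μ : Measure Ω} {φ : Ω → ℝ → ℝ}

lemma const_ev {a b : ℝ} (h : ∀ ε : ℝ, 0 < ε → ∀ᶠ _T : ℝ in atTop, a ≤ b + ε) : a ≤ b := by
  refine le_of_forall_pos_le_add fun ε hε => ?_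
  obtain ⟨T, hT⟩ := (h ε hε).exists
  exact hT

/-- the three consequences of the lower bound, for small test functions -/
lemma Mix.upper [IsFiniteMeasure μ] (h : Mix μ φ) {C0 c a0 : ℝ} (hC0 : 0 ≤ C0) (hc : 0 < c)
    (ha0 : 0 < a0) (hl : LowD μ φ C0 c a0) : ∃ C : ℝ, 0 ≤ C ∧ ∀ δ : ℝ, 0 < δ → δ ≤ 1 / 4 →
      ∀ ε : ℝ, 0 < ε → ∀ᶠ T in atTop, Aa T 0 * Real.log 2 + (VV μ φ / (2 * δ) - EQ μ φ δ) ≤
        1 / (2 * δ) + δ * mm 1 + C * δ ^ 2 + ε := by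
  obtain ⟨C3, hC3, h3⟩ := h.low_lim hC0 hc ha0 hl
  obtain ⟨C, hC, hbase⟩ := base
  refine ⟨C + C3, by positivity, fun δ hδ hδ1 ε hε => ?_⟩
  have hδ4 : δ ≤ 1 := by linarith
  filter_upwards [hbase δ hδ hδ1 (ε / 2) (by positivity), h3 δ hδ hδ4 (ε / 2) (by positivity),
    eventually_gt_atTop (1 : ℝ)] with T b1 b2 hT
  rw [Aa_split hT hδ hδ4, mo_psi hδ] at b1
  rw [h.pairing hδ hδ4] at b2
  have b3 := (abs_le.1 b1).2
  linarith

lemma small_lin {a b : ℝ} (h : ∃ C : ℝ, ∀ δ : ℝ, 0 < δ → δ ≤ 1 / 4 → a ≤ b + C * δ) : a ≤ b := by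
  obtain ⟨C, h⟩ := h
  have h1 : Tendsto (fun δ : ℝ => b + C * δ) (𝓝[>] 0) (𝓝 b) := by
    have : ContinuousAt (fun δ : ℝ => b + C * δ) 0 := by fun_prop
    have h2 := this.tendsto
    simp only [mul_zero, add_zero] at h2
    exact h2.mono_left nhdsWithin_le_nhds
  refine ge_of_tendsto h1 ?_
  have c3 : ∀ᶠ δ : ℝ in 𝓝[>] 0, δ < 1 / 4 :=
    nhdsWithin_le_nhds (eventually_lt_nhds (by norm_num))
  filter_upwards [c3, self_mem_nhdsWithin] with δ h2 h3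
  exact h δ h3 h2.le

/-- the two sided information at the level of the mixture -/
lemma Mix.key [IsFiniteMeasure μ] (h : Mix μ φ) {C0 c a0 : ℝ} (hC0 : 0 ≤ C0) (hc : 0 < c)
    (ha0 : 0 < a0) (hl : LowD μ φ C0 c a0) : ∃ C : ℝ, 0 ≤ C ∧ ∀ δ : ℝ, 0 < δ → δ ≤ 1 / 4 →
      Real.log 2 + VV μ φ / (2 * δ) ≤ EQ μ φ δ + 1 / (2 * δ) + C * δ := by
  obtain ⟨C, hC, h1⟩ := h.upper hC0 hc ha0 hl
  have hm := mm_pos
  have hlog : 0 < Real.log 2 := Real.log_pos (by norm_num)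
  refine ⟨mm 1 + C, by positivity, fun δ hδ hδ1 => ?_⟩
  refine const_ev fun ε hε => ?_
  filter_upwards [h1 δ hδ hδ1 (ε / 2) (by positivity),
    Aa_diag (ε := ε / (2 * Real.log 2)) (by positivity)] with T h2 h3
  have h4 := mul_le_mul_of_nonneg_right h3 hlog.le
  have e : (1 - ε / (2 * Real.log 2)) * Real.log 2 = Real.log 2 - ε / 2 := by
    field_simp
  rw [e] at h4
  have h5 : δ ^ 2 ≤ δ := by nlinarith
  have h6 := mul_le_mul_of_nonneg_left h5 hC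
  linarith

lemma Mix.VV_le [IsFiniteMeasure μ] (h : Mix μ φ) {C0 c a0 : ℝ} (hC0 : 0 ≤ C0) (hc : 0 < c)
    (ha0 : 0 < a0) (hl : LowD μ φ C0 c a0) : VV μ φ ≤ 1 := by
  obtain ⟨C, hC, h1⟩ := h.key hC0 hc ha0 hl
  refine small_lin ⟨2 * C, fun δ hδ hδ1 => ?_⟩
  have h2 := h1 δ hδ hδ1
  have h3 := h.EQ_le hδ
  have h4 := h.sq2_le
  have hlog : 0 < Real.log 2 := Real.log_pos (by norm_num)
  have h5 : EQ μ φ δ ≤ Real.log 2 := by nlinarith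
  have h6 : VV μ φ / (2 * δ) ≤ 1 / (2 * δ) + C * δ := by linarith
  have h7 : VV μ φ ≤ (1 / (2 * δ) + C * δ) * (2 * δ) := by
    rwa [div_le_iff₀ (by positivity)] at h6
  have e : (1 / (2 * δ) + C * δ) * (2 * δ) = 1 + 2 * C * δ ^ 2 := by
    field_simp
  rw [e] at h7
  have h8 : δ ^ 2 ≤ δ := by nlinarith
  have h9 := mul_le_mul_of_nonneg_left h8 (by positivity : 0 ≤ 2 * C)
  linarith

/-- the density is one -/
lemma Mix.cc_one [IsProbabilityMeasure μ] (h : Mix μ φ) (hV : VV μ φ ≤ 1) :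
    (∀ᵐ ω ∂μ, ∫ t, φ ω t = 1) ∧ VV μ φ = 1 := by
  have i1 : Integrable (fun ω => (∫ t, φ ω t) ^ 2 - 2 * ∫ t, φ ω t) μ :=
    h.sq.sub (h.cc_int.const_mul 2)
  have e1 : ∫ ω, ((∫ t, φ ω t) - 1) ^ 2 ∂μ = VV μ φ - 1 := by
    have e2 : ∀ ω, ((∫ t, φ ω t) - 1) ^ 2 = ((∫ t, φ ω t) ^ 2 - 2 * ∫ t, φ ω t) + 1 := fun ω => by
      ring
    simp_rw [e2]
    rw [integral_add i1 (integrable_const 1), integral_sub h.sq (h.cc_int.const_mul 2),
      integral_const_mul, h.mean, integral_const]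
    unfold VV
    simp
    ring
  have h0 : 0 ≤ ∫ ω, ((∫ t, φ ω t) - 1) ^ 2 ∂μ := integral_nonneg fun _ => sq_nonneg _
  have hV1 : VV μ φ = 1 := by linarith
  refine ⟨?_, hV1⟩
  have i2 : Integrable (fun ω => ((∫ t, φ ω t) - 1) ^ 2) μ := by
    refine (i1.add (integrable_const 1)).congr (ae_of_all _ fun ω => ?_)
    show ((∫ t, φ ω t) ^ 2 - 2 * ∫ t, φ ω t) + 1 = ((∫ t, φ ω t) - 1) ^ 2
    ring
  have h2 := (integral_eq_zero_iff_of_nonneg (fun ω => sq_nonneg _) i2).1 (by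
    rw [e1, hV1, sub_self])
  filter_upwards [h2] with ω hω
  have h3 : ((∫ t, φ ω t) - 1) ^ 2 = 0 := hω
  have h4 := pow_eq_zero_iff (two_ne_zero) |>.1 h3
  linarith

/-- almost all symbols are indicators -/
lemma Mix.set1 [IsProbabilityMeasure μ] (h : Mix μ φ) {C0 c a0 : ℝ} (hC0 : 0 ≤ C0) (hc : 0 < c)
    (ha0 : 0 < a0) (hl : LowD μ φ C0 c a0) : ∀ᵐ ω ∂μ, Set1 (φ ω) := by
  obtain ⟨h1, hV⟩ := h.cc_one (h.VV_le hC0 hc ha0 hl)
  obtain ⟨C, hC, hk⟩ := h.key hC0 hc ha0 hl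
  have hlog : 0 < Real.log 2 := Real.log_pos (by norm_num)
  have h2 : (1 : ℝ) ≤ ∫ ω, (∫ t, φ ω t ^ 2) ∂μ := by
    refine small_lin ⟨C / Real.log 2, fun δ hδ hδ1 => ?_⟩
    have h3 := hk δ hδ hδ1
    rw [hV] at h3
    have h4 := h.EQ_le hδ
    have h5 : Real.log 2 * 1 ≤ Real.log 2 * ((∫ ω, (∫ t, φ ω t ^ 2) ∂μ) + C / Real.log 2 * δ) := by
      have e : Real.log 2 * ((∫ ω, (∫ t, φ ω t ^ 2) ∂μ) + C / Real.log 2 * δ) =
          Real.log 2 * (∫ ω, (∫ t, φ ω t ^ 2) ∂μ) + C * δ := by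
        field_simp
      rw [e]
      linarith
    exact le_of_mul_le_mul_left h5 hlog
  have h3 : ∫ ω, ((∫ t, φ ω t) - ∫ t, φ ω t ^ 2) ∂μ = 0 := by
    rw [integral_sub h.cc_int h.sq2_int, h.mean]
    have := h.sq2_le
    linarith
  have h4 := (integral_eq_zero_iff_of_nonneg (fun ω => sub_nonneg.2 (h.sy ω).sq_le)
    (h.cc_int.sub h.sq2_int)).1 h3
  filter_upwards [h1, h4] with ω a1 a2
  have a3 : (∫ t, φ ω t) - ∫ t, φ ω t ^ 2 = 0 := a2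
  have hs := h.sy ω
  have a4 : ∫ t, (φ ω t - φ ω t ^ 2) = 0 := by
    rw [integral_sub hs.int hs.sq_int]
    exact a3
  have a5 := (integral_eq_zero_iff_of_nonneg (fun t => by
    have b1 := hs.nonneg t
    have b2 := hs.le_one t
    show 0 ≤ φ ω t - φ ω t ^ 2
    nlinarith) (hs.int.sub hs.sq_int)).1 a4
  refine ⟨hs, ?_, a1⟩
  filter_upwards [a5] with t ht
  have h6 : φ ω t - φ ω t ^ 2 = 0 := ht
  have h7 : φ ω t * (1 - φ ω t) = 0 := by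
    rw [← h6]
    ring
  rcases mul_eq_zero.1 h7 with h8 | h8
  · exact Or.inl h8
  · exact Or.inr (by linarith)

/-- the diagonal -/
lemma Mix.diag [IsProbabilityMeasure μ] (h : Mix μ φ) {C0 c a0 : ℝ} (hC0 : 0 ≤ C0) (hc : 0 < c)
    (ha0 : 0 < a0) (hl : LowD μ φ C0 c a0) : ∀ ε : ℝ, 0 < ε → ∀ᶠ T in atTop, Aa T 0 ≤ 1 + ε := by
  intro ε hε
  obtain ⟨h1, hV⟩ := h.cc_one (h.VV_le hC0 hc ha0 hl)
  obtain ⟨C, hC, hu⟩ := h.upper hC0 hc ha0 hl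
  have hlog : 0 < Real.log 2 := Real.log_pos (by norm_num)
  have hm := mm_pos
  set K : ℝ := mm 1 + C with hK
  have hK0 : 0 < K := by positivity
  set δ : ℝ := min (1 / 4) (ε * Real.log 2 / (2 * K)) with hδ
  have hδ0 : 0 < δ := by positivity
  have hδ1 : δ ≤ 1 / 4 := min_le_left _ _
  have hδ2 : K * δ ≤ ε * Real.log 2 / 2 := by
    have h2 := mul_le_mul_of_nonneg_left (min_le_right (1 / 4) (ε * Real.log 2 / (2 * K))) hK0.le
    refine h2.trans (le_of_eq ?_)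
    field_simp
  filter_upwards [hu δ hδ0 hδ1 (ε * Real.log 2 / 2) (by positivity)] with T hT
  rw [hV] at hT
  have h3 := h.EQ_le hδ0
  have h4 := h.sq2_le
  have h5 : EQ μ φ δ ≤ Real.log 2 := by nlinarith
  have h6 : δ ^ 2 ≤ δ := by nlinarith
  have h7 := mul_le_mul_of_nonneg_left h6 hC
  have h8 : Aa T 0 * Real.log 2 ≤ (1 + ε) * Real.log 2 := by
    have : K * δ = δ * mm 1 + C * δ := by rw [hK]; ring
    linarith
  exact le_of_mul_le_mul_right h8 hlog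

/-- the sharp inequality -/
lemma Mix.sharp [IsProbabilityMeasure μ] (h : Mix μ φ) {C0 c a0 : ℝ} (hC0 : 0 ≤ C0) (hc : 0 < c)
    (ha0 : 0 < a0) (hl : LowD μ φ C0 c a0) : ∃ C : ℝ, 0 ≤ C ∧ ∀ δ : ℝ, 0 < δ → δ ≤ 1 / 4 →
      Real.log 2 - EQ μ φ δ ≤ δ * mm 1 + C * δ ^ 2 := by
  obtain ⟨h1, hV⟩ := h.cc_one (h.VV_le hC0 hc ha0 hl)
  obtain ⟨C3, hC3, h3⟩ := h.low_lim hC0 hc ha0 hl
  have hd := h.diag hC0 hc ha0 hl
  have honl := onl_of_diag hd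
  have hdl := diag_lim hd
  refine ⟨C3, hC3, fun δ hδ hδ1 => ?_⟩
  have hδ4 : δ ≤ 1 := by linarith
  have hlog : 0 < Real.log 2 := Real.log_pos (by norm_num)
  have hOT := OT_psi hδ hδ4
  have l1 := onl_lim honl (δ := 2 * δ) (by positivity) (by linarith) hOT
  have l2 := l1.sub (hdl.mul_const (Real.log 2))
  refine const_ev fun ε hε => ?_
  filter_upwards [(tendsto_order.1 l2).2 (mo (psi δ) - 1 * Real.log 2 + ε / 2) (by linarith),
    h3 δ hδ hδ4 (ε / 2) (by positivity), eventually_gt_atTop (1 : ℝ)] with T b1 b2 hT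
  rw [← Aa_g hδ hδ4, Aa_split hT hδ hδ4, mo_psi hδ] at b1
  rw [h.pairing hδ hδ4, hV] at b2
  linarith

end Q241.DT
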