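import Pool.Agent.Q241.DT.D
import Pool.Agent.Q241.HF.Fin

/-! # Almost all components are sine processes -/

set_option autoImplicit false

open MeasureTheory Filter Topology Set

namespace Q241.DT

open Q241.OP hiding Mont Low
open H370 TH803TW Pool.Agent.Y744
open Pool.Agent.Y750.OM (NO bl)

variable {Ω : Type*} [MeasurableSpace Ω] {μ : Measure Ω} {φ : Ω → ℝ → ℝ}

lemma Set1.ac_zero {φ : ℝ → ℝ} (h : Set1 φ) : ac φ 0 = 1 := by
  unfold ac
  rw [← h.one]
  refine integral_congr_ae ?_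
  filter_upwards [h.val] with t ht
  show φ t * φ (t + 0) = φ t
  rw [add_zero]
  rcases ht with ht | ht <;> rw [ht] <;> norm_num

lemma Set1.ac_le_one {φ : ℝ → ℝ} (h : Set1 φ) (α : ℝ) : ac φ α ≤ 1 := by
  have h1 := h.ac_le α
  have h2 := h.toSy.sq_le
  rw [h.one] at h2
  linarith

/-- a lower bound near zero gives one for the pairing -/
lemma Set1.pair_ge {φ : ℝ → ℝ} (h : Set1 φ) {κ : ℝ}
    (hk : ∀ᶠ α in 𝓝[>] (0 : ℝ), κ * α ≤ 1 - ac φ α) :
    ∀ᶠ δ in 𝓝[>] (0 : ℝ), κ * (δ * mm 1) ≤ Real.log 2 - ∫ α, psi δ α * ac φ α := by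
  obtain ⟨a, ha, hk⟩ := (mem_nhdsGT_iff_exists_Ioo_subset (a := (0 : ℝ))).1 hk
  have ha0 : (0 : ℝ) < a := ha
  have h1 : ∀ᶠ δ : ℝ in 𝓝[>] 0, δ < a / 2 :=
    nhdsWithin_le_nhds (eventually_lt_nhds (by positivity))
  filter_upwards [h1, self_mem_nhdsWithin] with δ hδ hδ0
  have hδp : (0 : ℝ) < δ := hδ0
  have h2 : ∀ α, |α| ≤ 2 * δ → κ * |α| ≤ 1 - ac φ α := by
    intro α hα
    rcases eq_or_ne α 0 with h3 | h3
    · rw [h3, abs_zero, mul_zero, h.ac_zero, sub_self]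
    · have h4 : |α| ∈ Ioo 0 a := ⟨abs_pos.2 h3, by linarith⟩
      have h5 : κ * |α| ≤ 1 - ac φ |α| := hk h4
      rcases abs_choice α with h6 | h6
      · rw [h6] at h5 ⊢
        exact h5
      · have e : ac φ |α| = ac φ α := by rw [h6, ac_even]
        rw [e] at h5
        exact h5
  rw [← mm_scale hδp, ← int_psi hδp, ← integral_sub (psi_integrable hδp) (h.toSy.pa_int hδp)]
  unfold mm
  rw [← integral_const_mul]
  refine integral_mono ((abs_psi_int hδp).const_mul _) ((psi_integrable hδp).sub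
    (h.toSy.pa_int hδp)) fun α => ?_
  show κ * (|α| * psi δ α) ≤ psi δ α - psi δ α * ac φ α
  by_cases hα : |α| ≤ 2 * δ
  · have h3 := mul_le_mul_of_nonneg_right (h2 α hα) (psi_nonneg hδp α)
    linarith
  · push Not at hα
    rw [psi_supp hδp α hα]
    simp

/-- the normalised defect -/
noncomputable def Mn (φ : ℝ → ℝ) (n : ℕ) : ENNReal :=
  ENNReal.ofReal ((Real.log 2 - ∫ α, psi (1 / ((n : ℝ) + 4)) α * ac φ α) /
    (1 / ((n : ℝ) + 4) * mm 1))

lemma dn_lim : Tendsto (fun n : ℕ => 1 / ((n : ℝ) + 4)) atTop (𝓝[>] 0) := by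
  rw [tendsto_nhdsWithin_iff]
  constructor
  · refine Tendsto.div_atTop tendsto_const_nhds ?_
    exact tendsto_atTop_add_const_right _ _ tendsto_natCast_atTop_atTop
  · exact Eventually.of_forall fun n => by
      show (0 : ℝ) < 1 / ((n : ℝ) + 4)
      positivity

lemma Set1.Mn_ge {φ : ℝ → ℝ} (h : Set1 φ) {κ : ℝ}
    (hk : ∀ᶠ α in 𝓝[>] (0 : ℝ), κ * α ≤ 1 - ac φ α) :
    ENNReal.ofReal κ ≤ liminf (Mn φ) atTop := by
  refine le_liminf_of_le (by isBoundedDefault) ?_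
  filter_upwards [dn_lim.eventually (h.pair_ge hk)] with n hn
  unfold Mn
  refine ENNReal.ofReal_le_ofReal ?_
  have hm := mm_pos
  rw [le_div_iff₀ (by positivity)]
  exact hn

lemma Set1.Mn_one {φ : ℝ → ℝ} (h : Set1 φ) : 1 ≤ liminf (Mn φ) atTop := by
  have h1 : Tendsto (fun η : ℝ => ENNReal.ofReal (1 - η)) (𝓝[>] 0) (𝓝 1) := by
    have h2 : Tendsto (fun η : ℝ => 1 - η) (𝓝[>] 0) (𝓝 1) := by
      have : ContinuousAt (fun η : ℝ => 1 - η) 0 := by fun_prop
      have h3 := this.tendsto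
      simp only [sub_zero] at h3
      exact h3.mono_left nhdsWithin_le_nhds
    have h3 := ENNReal.tendsto_ofReal h2
    rwa [ENNReal.ofReal_one] at h3
  refine le_of_tendsto h1 ?_
  filter_upwards [self_mem_nhdsWithin] with η hη
  exact h.Mn_ge (h.lower hη)

/-- **the identification**: almost all components are sine processes -/
theorem Mix.ivl [IsProbabilityMeasure μ] (h : Mix μ φ) {C0 c a0 : ℝ} (hC0 : 0 ≤ C0) (hc : 0 < c)
    (ha0 : 0 < a0) (hl : LowD μ φ C0 c a0) : ∀ᵐ ω ∂μ, Ivl (φ ω) := by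
  have hset := h.set1 hC0 hc ha0 hl
  obtain ⟨C, hC, hs⟩ := h.sharp hC0 hc ha0 hl
  have hm := mm_pos
  have hlog : 0 < Real.log 2 := Real.log_pos (by norm_num)
  have hd : ∀ n : ℕ, 0 < 1 / ((n : ℝ) + 4) ∧ 1 / ((n : ℝ) + 4) ≤ 1 / 4 := fun n =>
    ⟨by positivity, one_div_le_one_div_of_le (by norm_num) (by
      have : (0 : ℝ) ≤ n := Nat.cast_nonneg n
      linarith)⟩
  have hmeas : ∀ n : ℕ, Measurable fun ω => Mn (φ ω) n := fun n => by
    unfold Mn
    exact ((measurable_const.sub (h.pa_meas (hd n).1)).div_const _).ennreal_ofReal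
  have hint : ∀ n : ℕ, ∫⁻ ω, Mn (φ ω) n ∂μ ≤ ENNReal.ofReal (1 + C / mm 1 * (1 / ((n : ℝ) + 4))) := by
    intro n
    obtain ⟨h1, h2⟩ := hd n
    set δ : ℝ := 1 / ((n : ℝ) + 4) with hδ
    have i1 : Integrable (fun ω => (Real.log 2 - ∫ α, psi δ α * ac (φ ω) α) / (δ * mm 1)) μ :=
      ((integrable_const _).sub (h.pa_int h1)).div_const _
    have hnn : 0 ≤ᵐ[μ] fun ω => (Real.log 2 - ∫ α, psi δ α * ac (φ ω) α) / (δ * mm 1) := by
      filter_upwards [hset] with ω hω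
      refine div_nonneg ?_ (by positivity)
      have h3 := hω.toSy.pa_le h1
      have h4 := hω.toSy.sq_le
      rw [hω.one] at h4
      have h5 : 0 ≤ ∫ t, φ ω t ^ 2 := integral_nonneg fun _ => sq_nonneg _
      nlinarith
    have e1 : ∫⁻ ω, Mn (φ ω) n ∂μ = ENNReal.ofReal
        (∫ ω, (Real.log 2 - ∫ α, psi δ α * ac (φ ω) α) / (δ * mm 1) ∂μ) :=
      (ofReal_integral_eq_lintegral_ofReal i1 hnn).symm
    rw [e1]
    refine ENNReal.ofReal_le_ofReal ?_
    rw [integral_div, integral_sub (integrable_const _) (h.pa_int h1), integral_const,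
      probReal_univ, one_smul, div_le_iff₀ (by positivity)]
    have h3 := hs δ h1 h2
    have e2 : (1 + C / mm 1 * δ) * (δ * mm 1) = δ * mm 1 + C * δ ^ 2 := by
      field_simp
    rw [e2]
    exact h3
  set L : Ω → ENNReal := fun ω => liminf (Mn (φ ω)) atTop with hL
  have hLm : Measurable L := Measurable.liminf hmeas
  have hLint : ∫⁻ ω, L ω ∂μ ≤ 1 := by
    refine (lintegral_liminf_le hmeas).trans ?_
    have h1 : Tendsto (fun n : ℕ => ENNReal.ofReal (1 + C / mm 1 * (1 / ((n : ℝ) + 4)))) atTop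
        (𝓝 1) := by
      have h2 : Tendsto (fun n : ℕ => 1 + C / mm 1 * (1 / ((n : ℝ) + 4))) atTop (𝓝 1) := by
        have h3 := ((dn_lim.mono_right nhdsWithin_le_nhds).const_mul (C / mm 1)).const_add 1
        rwa [mul_zero, add_zero] at h3
      have h3 := ENNReal.tendsto_ofReal h2
      rwa [ENNReal.ofReal_one] at h3
    rw [← h1.liminf_eq]
    exact liminf_le_liminf (Eventually.of_forall hint)
  have hL1 : (fun _ => (1 : ENNReal)) ≤ᵐ[μ] L := by
    filter_upwards [hset] with ω hω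
    exact hω.Mn_one
  have hLe : (fun _ => (1 : ENNReal)) =ᵐ[μ] L := by
    refine ae_eq_of_ae_le_of_lintegral_le hL1 ?_ hLm.aemeasurable ?_
    · simp
    · simpa using hLint
  filter_upwards [hset, hLe] with ω h1 h2
  by_contra hn
  have h3 := h1.Mn_ge (h1.lower2 hn (η := 1 / 2) (by norm_num))
  have h4 : (1 : ENNReal) = L ω := h2
  have h5 : ENNReal.ofReal (2 - 1 / 2) ≤ 1 := by
    rw [h4]
    exact h3
  rw [← ENNReal.ofReal_one, ENNReal.ofReal_le_ofReal_iff zero_le_one] at h5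
  norm_num at h5

/-- the pair density is the one of the conjecture -/
lemma Mix.R_eq [IsProbabilityMeasure μ] (h : Mix μ φ) {C0 c a0 : ℝ} (hC0 : 0 ≤ C0) (hc : 0 < c)
    (ha0 : 0 < a0) (hl : LowD μ φ C0 c a0) (u : ℝ) : RR μ φ u = gd u := by
  unfold RR
  have e1 : ∫ ω, ((∫ t, φ ω t) ^ 2 - ‖KF (φ ω) u‖ ^ 2) ∂μ = ∫ _ω, gd u ∂μ := by
    refine integral_congr_ae ?_
    filter_upwards [h.set1 hC0 hc ha0 hl, h.ivl hC0 hc ha0 hl] with ω h1 h2
    rw [h1.one, h2.norm]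
    unfold gd
    ring
  rw [e1, integral_const, probReal_univ, one_smul]

lemma Mix.P_eq [IsProbabilityMeasure μ] (h : Mix μ φ) {C0 c a0 : ℝ} (hC0 : 0 ≤ C0) (hc : 0 < c)
    (ha0 : 0 < a0) (hl : LowD μ φ C0 c a0) (y : ℝ) : PP μ φ y = gp y := by
  unfold PP
  have h1 : ∀ u, RR μ φ u = gd u := h.R_eq hC0 hc ha0 hl
  simp_rw [h1]
  have h2 := gp_sub 0 y
  rw [gp_zero, sub_zero] at h2
  exact h2.symm

end Q241.DT
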