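import Pool.Agent.Q241.DT.E

/-! # The pair correlation conjecture and determinantal lower bounds -/

set_option autoImplicit false

open MeasureTheory Filter Topology Set

namespace Q241.DT

open Q241.OP hiding Mont Low
open Q241.OP.G (N F X Mont intF)
open Q241.HF (N0 N0_Dn LowExp low_all all_of Aa_of_Mont)
open H370 TH803TW Pool.Agent.Y744

/-- the lower bound by the pair correlation of a mixture -/
def LowBy {Ω : Type*} [MeasurableSpace Ω] (μ : Measure Ω) (φ : Ω → ℝ → ℝ) : Prop :=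
  ∃ C c A : ℝ, 0 < c ∧ ∀ β : ℝ, A ≤ β → ∀ ε : ℝ, 0 < ε → ∀ᶠ T : ℝ in atTop,
    ((∫ u in (0 : ℝ)..β, RR μ φ u) - C * Real.exp (-(c * β)) - ε) * X T ≤ N0 T β

variable {Ω : Type*} [MeasurableSpace Ω] {μ : Measure Ω} {φ : Ω → ℝ → ℝ}

lemma lowD_of (h : LowBy μ φ) : ∃ C0 c a0 : ℝ, 0 ≤ C0 ∧ 0 < c ∧ 0 < a0 ∧ LowD μ φ C0 c a0 := by
  obtain ⟨C, c, A, hc, h⟩ := h
  refine ⟨2 * max C 0, c, max A 1, by positivity, hc, lt_max_of_lt_right one_pos,
    fun y hy ε hε => ?_⟩
  have hy0 : 0 < y := (lt_max_of_lt_right one_pos).trans_le hy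
  filter_upwards [h y ((le_max_left _ _).trans hy) (ε / 2) (by positivity), N0_Dn hy0.le,
    eventually_gt_atTop (1 : ℝ)] with T h1 h2 hT
  have hX : 0 < X T := Xf_pos hT
  rw [h2] at h1
  have h3 : PP μ φ y - C * Real.exp (-(c * y)) - ε / 2 ≤ Dn T y / 2 := by
    refine le_of_mul_le_mul_right ?_ hX
    have e : Dn T y / 2 * X T = X T * Dn T y / 2 := by ring
    rw [e]
    exact h1
  have h4 : C * Real.exp (-(c * y)) ≤ max C 0 * Real.exp (-(c * y)) :=
    mul_le_mul_of_nonneg_right (le_max_left _ _) (Real.exp_pos _).le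
  linarith

theorem mont_of [IsProbabilityMeasure μ] (h : Mix μ φ) (hl : LowBy μ φ) :
    Mont ∧ ∀ᵐ ω ∂μ, Ivl (φ ω) := by
  obtain ⟨C0, c, a0, hC0, hc, ha0, hD⟩ := lowD_of hl
  refine ⟨?_, h.ivl hC0 hc ha0 hD⟩
  have hP := h.P_eq hC0 hc ha0 hD
  have hE : LowExp := by
    obtain ⟨C, c', A, hc', h1⟩ := hl
    refine ⟨C, c', A, hc', fun β hβ ε hε => ?_⟩
    filter_upwards [h1 β hβ ε hε] with T hT
    have e : ∫ u in (0 : ℝ)..β, RR μ φ u = ∫ u in (0 : ℝ)..β, F u := by
      rw [intF, gp_zero, sub_zero]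
      exact hP β
    rw [e] at hT
    exact hT
  exact (all_of (low_all hE)).1

/-- the symbol of the sine process -/
noncomputable def sn : Unit → ℝ → ℝ := fun _ => (Ioo (0 : ℝ) (0 + 1)).indicator fun _ => (1 : ℝ)

lemma sn_int (x : Unit) : Integrable (sn x) := by
  unfold sn
  rw [integrable_indicator_iff measurableSet_Ioo]
  exact integrableOn_const (by simp)

lemma sn_total (x : Unit) : ∫ t, sn x t = 1 := by
  unfold sn
  rw [integral_indicator measurableSet_Ioo]
  simp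

lemma sn_mix : Mix (Measure.dirac ()) sn where
  meas := by
    have h1 : Measurable fun t : ℝ => (Ioo (0 : ℝ) (0 + 1)).indicator (fun _ => (1 : ℝ)) t :=
      measurable_const.indicator measurableSet_Ioo
    exact h1.comp measurable_snd
  nonneg := fun _ t => indicator_nonneg (fun _ _ => zero_le_one) t
  le_one := fun _ t => indicator_le_self' (fun _ _ => zero_le_one) t
  int := sn_int
  mean := by
    rw [integral_dirac]
    exact sn_total ()
  sq := integrable_dirac (by simp)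

lemma sn_R (u : ℝ) : RR (Measure.dirac ()) sn u = gd u := by
  unfold RR
  have hI : Ivl (sn ()) := ⟨0, Filter.EventuallyEq.rfl⟩
  rw [integral_dirac, sn_total, hI.norm]
  unfold gd
  ring

theorem of_mont (h : Mont) : LowBy (Measure.dirac ()) sn := by
  obtain ⟨C, c, A, hc, h1⟩ := (all_of (Aa_of_Mont h)).2.2.2.1
  refine ⟨C, c, A, hc, fun β hβ ε hε => ?_⟩
  filter_upwards [h1 β hβ ε hε] with T hT
  have e : ∫ u in (0 : ℝ)..β, RR (Measure.dirac ()) sn u = ∫ u in (0 : ℝ)..β, F u := by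
    rw [intF]
    simp_rw [sn_R]
    exact (gp_sub 0 β).symm
  rw [e]
  exact hT

end Q241.DT
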