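import Pool.Agent.Q241.DT.A

/-! # The autocorrelation of the indicator of a set near the origin -/

set_option autoImplicit false

open MeasureTheory Filter Topology Set

namespace Q241.DT

variable {φ : ℝ → ℝ}

/-- the symbol of a set of measure one -/
structure Set1 (φ : ℝ → ℝ) : Prop extends Sy φ where
  val : ∀ᵐ t, φ t = 0 ∨ φ t = 1
  one : ∫ t, φ t = 1

/-- mean over a short interval -/
noncomputable def Fa (φ : ℝ → ℝ) (α p : ℝ) : ℝ := α⁻¹ * ∫ t in p..(p + α), φ t

/-- good points -/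
def Gd (φ : ℝ → ℝ) (p : ℝ) : Prop :=
  (φ p = 0 ∨ φ p = 1) ∧ Tendsto (fun α => Fa φ α p) (𝓝[>] 0) (𝓝 (φ p))

lemma Set1.gd_ae (h : Set1 φ) : ∀ᵐ p, Gd φ p := by
  have h0 : LocallyIntegrable φ volume := h.int.locallyIntegrable
  have h1 := LocallyIntegrable.ae_hasDerivAt_integral h0
  filter_upwards [h.val, h1] with p hp hd
  refine ⟨hp, ?_⟩
  have h2 := (hd 0).tendsto_slope_zero_right
  refine h2.congr fun α => ?_
  unfold Fa
  rw [smul_eq_mul, intervalIntegral.integral_interval_sub_left h.int.intervalIntegrable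
    h.int.intervalIntegrable]

lemma shift_int (h : Sy φ) (α : ℝ) : Integrable fun t => |φ (t + α) - φ t| :=
  ((h.int.comp_add_right α).sub h.int).abs

/-- the translation distance -/
lemma Set1.dist (h : Set1 φ) (α : ℝ) : ∫ t, |φ (t + α) - φ t| = 2 * (1 - ac φ α) := by
  have h1 : ∀ᵐ t, φ (t + α) = 0 ∨ φ (t + α) = 1 :=
    (measurePreserving_add_right volume α).quasiMeasurePreserving.ae h.val
  have e1 : ∫ t, |φ (t + α) - φ t| = ∫ t, (φ (t + α) + φ t - 2 * (φ t * φ (t + α))) := by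
    refine integral_congr_ae ?_
    filter_upwards [h.val, h1] with t h2 h3
    rcases h2 with h2 | h2 <;> rcases h3 with h3 | h3 <;> rw [h2, h3] <;> norm_num
  have i1 : Integrable fun t => φ (t + α) := h.int.comp_add_right α
  have i2 : Integrable fun t => φ (t + α) + φ t := i1.add h.int
  rw [e1, integral_sub i2 ((h.prod_int α).const_mul 2), integral_add i1 h.int,
    integral_const_mul, integral_add_right_eq_self φ α, h.one]
  unfold ac
  ring

lemma Fa_diff (h : Sy φ) {α p q : ℝ} (hα : 0 < α) (hpq : p ≤ q) :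
    α * |Fa φ α q - Fa φ α p| ≤ ∫ t in Ioc p q, |φ (t + α) - φ t| := by
  have hi : ∀ a b, IntervalIntegrable φ volume a b := fun a b => h.int.intervalIntegrable
  have e1 : ∫ t in p..q, (φ (t + α) - φ t) = (∫ t in q..(q + α), φ t) - ∫ t in p..(p + α), φ t := by
    have i1 : IntervalIntegrable (fun t => φ (t + α)) volume p q :=
      (h.int.comp_add_right α).intervalIntegrable
    rw [intervalIntegral.integral_sub i1 (hi _ _),
      intervalIntegral.integral_comp_add_right (fun t => φ t) α]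
    have h1 := intervalIntegral.integral_add_adjacent_intervals (hi p (p + α)) (hi (p + α) (q + α))
    have h2 := intervalIntegral.integral_add_adjacent_intervals (hi p q) (hi q (q + α))
    linarith
  have e2 : α * |Fa φ α q - Fa φ α p| = |∫ t in p..q, (φ (t + α) - φ t)| := by
    unfold Fa
    rw [e1, ← mul_sub, abs_mul, abs_inv, abs_of_pos hα, mul_inv_cancel_left₀ hα.ne']
  rw [e2]
  refine (intervalIntegral.abs_integral_le_integral_abs hpq).trans (le_of_eq ?_)
  rw [intervalIntegral.integral_of_le hpq]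

/-- three points -/
lemma three (h : Sy φ) {α p q r : ℝ} (hα : 0 < α) (h1 : p ≤ q) (h2 : q ≤ r) :
    α * (|Fa φ α q - Fa φ α p| + |Fa φ α r - Fa φ α q|) ≤ ∫ t in Ioc p r, |φ (t + α) - φ t| := by
  have a1 := Fa_diff h hα h1
  have a2 := Fa_diff h hα h2
  have e : Ioc p r = Ioc p q ∪ Ioc q r := (Ioc_union_Ioc_eq_Ioc h1 h2).symm
  have i := shift_int h α
  rw [e, setIntegral_union (Ioc_disjoint_Ioc_of_le le_rfl) measurableSet_Ioc i.integrableOn
    i.integrableOn]
  linarith

lemma whole (h : Sy φ) (α : ℝ) {s : Set ℝ} :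
    ∫ t in s, |φ (t + α) - φ t| ≤ ∫ t, |φ (t + α) - φ t| :=
  setIntegral_le_integral (shift_int h α) (ae_of_all _ fun _ => abs_nonneg _)

lemma lim_diff {p q x y : ℝ} (hp : Tendsto (fun α => Fa φ α p) (𝓝[>] 0) (𝓝 x))
    (hq : Tendsto (fun α => Fa φ α q) (𝓝[>] 0) (𝓝 y)) :
    Tendsto (fun α => |Fa φ α q - Fa φ α p|) (𝓝[>] 0) (𝓝 |y - x|) := (hq.sub hp).abs

lemma Set1.low1 (h : Set1 φ) {p q r : ℝ} (gp : Gd φ p) (gq : Gd φ q) (gr : Gd φ r)
    (h1 : p ≤ q) (h2 : q ≤ r) (e1 : φ p = 0) (e2 : φ q = 1) (e3 : φ r = 0) {η : ℝ} (hη : 0 < η) :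
    ∀ᶠ α in 𝓝[>] (0 : ℝ), (1 - η) * α ≤ 1 - ac φ α := by
  have l1 := lim_diff gp.2 gq.2
  have l2 := lim_diff gq.2 gr.2
  rw [e1, e2] at l1
  rw [e2, e3] at l2
  have l3 := l1.add l2
  norm_num at l3
  filter_upwards [(tendsto_order.1 l3).1 (2 - 2 * η) (by linarith), self_mem_nhdsWithin] with α b hα
  have hα0 : (0 : ℝ) < α := hα
  have a1 := (three h.toSy hα0 h1 h2).trans (whole h.toSy α)
  rw [h.dist] at a1
  have a2 := mul_le_mul_of_nonneg_left b.le hα0.le
  linarith

lemma Set1.low2 (h : Set1 φ) {p q r s t : ℝ} (gp : Gd φ p) (gq : Gd φ q) (gr : Gd φ r)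
    (gs : Gd φ s) (gt : Gd φ t) (h1 : p ≤ q) (h2 : q ≤ r) (h3 : r ≤ s) (h4 : s ≤ t)
    (e1 : φ p = 0) (e2 : φ q = 1) (e3 : φ r = 0) (e4 : φ s = 1) (e5 : φ t = 0)
    {η : ℝ} (hη : 0 < η) :
    ∀ᶠ α in 𝓝[>] (0 : ℝ), (2 - η) * α ≤ 1 - ac φ α := by
  have l1 := lim_diff gp.2 gq.2
  have l2 := lim_diff gq.2 gr.2
  have l3 := lim_diff gr.2 gs.2
  have l4 := lim_diff gs.2 gt.2
  rw [e1, e2] at l1
  rw [e2, e3] at l2
  rw [e3, e4] at l3
  rw [e4, e5] at l4
  have l5 := (l1.add l2).add (l3.add l4)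
  norm_num at l5
  filter_upwards [(tendsto_order.1 l5).1 (4 - 2 * η) (by linarith), self_mem_nhdsWithin] with α b hα
  have hα0 : (0 : ℝ) < α := hα
  have a1 := three h.toSy hα0 h1 h2
  have a2 := three h.toSy hα0 h3 h4
  have i := shift_int h.toSy α
  have a3 : (∫ u in Ioc p r, |φ (u + α) - φ u|) + (∫ u in Ioc r t, |φ (u + α) - φ u|) ≤
      ∫ u, |φ (u + α) - φ u| := by
    rw [← setIntegral_union (Ioc_disjoint_Ioc_of_le le_rfl) measurableSet_Ioc i.integrableOn
      i.integrableOn]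
    exact whole h.toSy α
  rw [h.dist] at a3
  have a4 := mul_le_mul_of_nonneg_left b.le hα0.le
  linarith

lemma Set1.ex_one (h : Set1 φ) : ∃ q, Gd φ q ∧ φ q = 1 := by
  by_contra hc
  push Not at hc
  have h1 : φ =ᵐ[volume] fun _ => (0 : ℝ) := by
    filter_upwards [h.gd_ae] with p hp
    rcases hp.1 with h2 | h2
    · exact h2
    · exact absurd h2 (hc p hp)
  have h2 := h.one
  rw [integral_congr_ae h1] at h2
  simp at h2

lemma Set1.not_two (h : Set1 φ) {x y : ℝ} (hxy : 1 < y - x)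
    (hc : ∀ p, x < p → p ≤ y → Gd φ p → φ p = 1) : False := by
  have h1 : ∫ t in Ioc x y, φ t = ∫ _t in Ioc x y, (1 : ℝ) := by
    refine setIntegral_congr_ae measurableSet_Ioc ?_
    filter_upwards [h.gd_ae] with p hp hp2
    exact hc p hp2.1 hp2.2 hp
  have h2 : ∫ t in Ioc x y, φ t ≤ ∫ t, φ t :=
    setIntegral_le_integral h.int (ae_of_all _ h.nonneg)
  rw [h1, h.one] at h2
  simp only [integral_const, MeasurableSet.univ, measureReal_restrict_apply, univ_inter,
    Real.volume_real_Ioc, smul_eq_mul, mul_one] at h2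
  have h3 := le_max_left (y - x) 0
  linarith

lemma Set1.ex_right (h : Set1 φ) (x : ℝ) : ∃ p, x < p ∧ Gd φ p ∧ φ p = 0 := by
  by_contra hc
  push Not at hc
  refine h.not_two (x := x) (y := x + 2) (by linarith) fun p h1 _ h3 => ?_
  rcases h3.1 with h4 | h4
  · exact absurd h4 (hc p h1 h3)
  · exact h4

lemma Set1.ex_left (h : Set1 φ) (x : ℝ) : ∃ p, p < x ∧ Gd φ p ∧ φ p = 0 := by
  by_contra hc
  push Not at hc
  refine h.not_two (x := x - 3) (y := x - 1) (by linarith) fun p _ h2 h3 => ?_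
  rcases h3.1 with h4 | h4
  · exact absurd h4 (hc p (by linarith) h3)
  · exact h4

/-- **the autocorrelation decreases at least at unit speed** -/
theorem Set1.lower (h : Set1 φ) {η : ℝ} (hη : 0 < η) :
    ∀ᶠ α in 𝓝[>] (0 : ℝ), (1 - η) * α ≤ 1 - ac φ α := by
  obtain ⟨q, gq, eq⟩ := h.ex_one
  obtain ⟨p, h1, gp, ep⟩ := h.ex_left q
  obtain ⟨r, h2, gr, er⟩ := h.ex_right q
  exact h.low1 gp gq gr h1.le h2.le ep eq er hη

/-- the symbol is the indicator of an interval -/
def Ivl (φ : ℝ → ℝ) : Prop := ∃ a : ℝ, φ =ᵐ[volume] (Ioo a (a + 1)).indicator fun _ => (1 : ℝ)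

/-- **and at twice this speed, if the set is not an interval** -/
theorem Set1.lower2 (h : Set1 φ) (hn : ¬ Ivl φ) {η : ℝ} (hη : 0 < η) :
    ∀ᶠ α in 𝓝[>] (0 : ℝ), (2 - η) * α ≤ 1 - ac φ α := by
  by_cases hex : ∃ q r s, q < r ∧ r < s ∧ Gd φ q ∧ Gd φ r ∧ Gd φ s ∧ φ q = 1 ∧ φ r = 0 ∧ φ s = 1
  · obtain ⟨q, r, s, h2, h3, gq, gr, gs, eq, er, es⟩ := hex
    obtain ⟨p, h1, gp, ep⟩ := h.ex_left q
    obtain ⟨t, h4, gt, et⟩ := h.ex_right s
    exact h.low2 gp gq gr gs gt h1.le h2.le h3.le h4.le ep eq er es et hη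
  · exfalso
    apply hn
    push Not at hex
    set P : Set ℝ := {p | Gd φ p ∧ φ p = 1} with hP
    obtain ⟨q0, gq0, eq0⟩ := h.ex_one
    have hne : P.Nonempty := ⟨q0, gq0, eq0⟩
    have hconv : ∀ x ∈ P, ∀ y ∈ P, ∀ p, x < p → p < y → Gd φ p → φ p = 1 := by
      intro x hx y hy p h1 h2 hp
      rcases hp.1 with h3 | h3
      · exact absurd hy.2 (hex x p y h1 h2 hx.1 hp hy.1 hx.2 h3)
      · exact h3
    have hdiam : ∀ x ∈ P, ∀ y ∈ P, y - x ≤ 1 := by
      intro x hx y hy
      by_contra hc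
      push Not at hc
      refine h.not_two (x := x) (y := y) hc fun p h1 h2 h3 => ?_
      rcases h2.lt_or_eq with h4 | h4
      · exact hconv x hx y hy p h1 h4 h3
      · rw [h4]; exact hy.2
    have hb1 : BddBelow P := ⟨q0 - 1, fun x hx => by linarith [hdiam x hx q0 ⟨gq0, eq0⟩]⟩
    have hb2 : BddAbove P := ⟨q0 + 1, fun x hx => by linarith [hdiam q0 ⟨gq0, eq0⟩ x hx]⟩
    set a : ℝ := sInf P with ha
    set b : ℝ := sSup P with hb
    have hab : a ≤ b := (csInf_le hb1 hne.some_mem).trans (le_csSup hb2 hne.some_mem)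
    have hI : φ =ᵐ[volume] (Ioo a b).indicator fun _ => (1 : ℝ) := by
      have h1 : ∀ᵐ p : ℝ, p ∉ ({a, b} : Set ℝ) :=
        measure_eq_zero_iff_ae_notMem.mp ((Set.toFinite _).measure_zero _)
      filter_upwards [h.gd_ae, h1] with p hp hp2
      by_cases hin : p ∈ Ioo a b
      · rw [indicator_of_mem hin]
        obtain ⟨x, hx, hx2⟩ := exists_lt_of_csInf_lt hne hin.1
        obtain ⟨y, hy, hy2⟩ := exists_lt_of_lt_csSup hne hin.2
        exact hconv x hx y hy p hx2 hy2 hp
      · rw [indicator_of_notMem hin]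
        rcases hp.1 with h3 | h3
        · exact h3
        · exfalso
          apply hin
          have hpP : p ∈ P := ⟨hp, h3⟩
          have h4 : a ≤ p := csInf_le hb1 hpP
          have h5 : p ≤ b := le_csSup hb2 hpP
          refine ⟨lt_of_le_of_ne h4 fun h6 => hp2 ?_, lt_of_le_of_ne h5 fun h6 => hp2 ?_⟩
          · rw [← h6]; left; rfl
          · rw [h6]; right; rfl
    have hlen : b - a = 1 := by
      have h1 := h.one
      rw [integral_congr_ae hI, integral_indicator measurableSet_Ioo] at h1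
      simp only [integral_const, MeasurableSet.univ, measureReal_restrict_apply, univ_inter,
        Real.volume_real_Ioo, smul_eq_mul, mul_one] at h1
      rw [max_eq_left (by linarith)] at h1
      exact h1
    refine ⟨a, ?_⟩
    have e : a + 1 = b := by linarith
    rw [e]
    exact hI

/-- the kernel of an interval -/
theorem Ivl.norm (h : Ivl φ) (u : ℝ) : ‖KF φ u‖ ^ 2 = Real.sinc (Real.pi * u) ^ 2 := by
  obtain ⟨a, ha⟩ := h
  have e1 : KF φ u = ∫ t in (a : ℝ)..(a + 1), Complex.exp (2 * Real.pi * u * t * Complex.I) := by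
    unfold KF
    rw [intervalIntegral.integral_of_le (by linarith), integral_Ioc_eq_integral_Ioo,
      ← integral_indicator measurableSet_Ioo]
    refine integral_congr_ae ?_
    filter_upwards [ha] with t ht
    rw [ht]
    by_cases h1 : t ∈ Ioo a (a + 1)
    · rw [indicator_of_mem h1, indicator_of_mem h1]
      push_cast
      ring
    · rw [indicator_of_notMem h1, indicator_of_notMem h1]
      push_cast
      ring
  by_cases hu : u = 0
  · subst hu
    rw [e1]
    simp
  · have hc : (2 * Real.pi * u * Complex.I : ℂ) ≠ 0 := by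
      simp [hu, Real.pi_ne_zero]
    have e2 : ∀ t : ℝ, Complex.exp (2 * Real.pi * u * t * Complex.I) =
        Complex.exp ((2 * Real.pi * u * Complex.I : ℂ) * t) := by
      intro t
      congr 1
      ring
    simp_rw [e2] at e1
    rw [integral_exp_mul_complex hc] at e1
    set θ : ℝ := Real.pi * u * (2 * a + 1) with hθ
    have e3 : Complex.exp ((2 * Real.pi * u * Complex.I : ℂ) * ((a + 1 : ℝ) : ℂ)) -
        Complex.exp ((2 * Real.pi * u * Complex.I : ℂ) * (a : ℂ)) =
        Complex.exp ((θ : ℂ) * Complex.I) * (2 * Complex.I * ((Real.sin (Real.pi * u) : ℝ) : ℂ)) := by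
      have h1 : (2 * Real.pi * u * Complex.I : ℂ) * ((a + 1 : ℝ) : ℂ) =
          (θ : ℂ) * Complex.I + ((Real.pi * u : ℝ) : ℂ) * Complex.I := by
        rw [hθ]
        push_cast
        ring
      have h2 : (2 * Real.pi * u * Complex.I : ℂ) * (a : ℂ) =
          (θ : ℂ) * Complex.I + -(((Real.pi * u : ℝ) : ℂ) * Complex.I) := by
        rw [hθ]
        push_cast
        ring
      rw [h1, h2, Complex.exp_add, Complex.exp_add, Complex.ofReal_sin, Complex.sin, ← mul_sub]
      congr 1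
      rw [neg_mul]
      have hI : Complex.I * Complex.I = -1 := Complex.I_mul_I
      linear_combination (-Complex.exp (-(((Real.pi * u : ℝ) : ℂ) * Complex.I)) +
        Complex.exp (((Real.pi * u : ℝ) : ℂ) * Complex.I)) * hI
    rw [e3] at e1
    have hx : Real.pi * u ≠ 0 := mul_ne_zero Real.pi_ne_zero hu
    rw [e1, Real.sinc_of_ne_zero hx, norm_div, norm_mul, Complex.norm_exp_ofReal_mul_I, one_mul]
    have n1 : ‖(2 * Complex.I * ((Real.sin (Real.pi * u) : ℝ) : ℂ) : ℂ)‖ =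
        2 * |Real.sin (Real.pi * u)| := by
      rw [norm_mul, norm_mul, Complex.norm_I, Complex.norm_real, Real.norm_eq_abs]
      norm_num
    have n2 : ‖(2 * Real.pi * u * Complex.I : ℂ)‖ = 2 * |Real.pi * u| := by
      rw [norm_mul, Complex.norm_I, mul_one]
      have e4 : (2 * Real.pi * u : ℂ) = ((2 * (Real.pi * u) : ℝ) : ℂ) := by
        push_cast
        ring
      rw [e4, Complex.norm_real, Real.norm_eq_abs, abs_mul, abs_of_pos (two_pos : (0 : ℝ) < 2)]
    rw [n1, n2, mul_div_mul_left _ _ two_ne_zero, ← abs_div, sq_abs]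

end Q241.DT
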